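import Mathlib

/-!
Definitions used in the statement: formulas over vectors and the explicit point set.
-/

namespace Pool.Agent.Helper8.ReadKTree

/-- `Formula w n d p r`: the vector `p` of `w` polynomials in `ℚ[x_0, …, x_{n-1}]` is computed by a
formula (a tree) with gates of fan-in two. The gates are the addition of vectors and arbitrary
bilinear maps `B : ℚ^w × ℚ^w → ℚ^w`; the leaves are constant vectors and vectors of `w` univariate
polynomials of degree at most `d` in one of the variables; `r i` is the number of leaves of the
second kind which carry the variable `x_i`. The depth is not bounded and nothing is assumed about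
the degrees of the polynomials computed inside. For `w = 1` these are the arithmetic formulas with
`+` and `×` gates. -/
inductive Formula (w n d : ℕ) : (Fin w → MvPolynomial (Fin n) ℚ) → (Fin n → ℕ) → Prop
  | const (v : Fin w → ℚ) : Formula w n d (fun a => MvPolynomial.C (v a)) 0
  | leaf (i : Fin n) (F : Fin w → Polynomial ℚ) (hF : ∀ a, (F a).natDegree ≤ d) :
      Formula w n d (fun a => Polynomial.aeval (MvPolynomial.X i) (F a)) (Pi.single i 1)
  | add {p q : Fin w → MvPolynomial (Fin n) ℚ} {r s : Fin n → ℕ} :
      Formula w n d p r → Formula w n d q s → Formula w n d (p + q) (r + s)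
  | gate (B : Fin w → Fin w → Fin w → ℚ) {p q : Fin w → MvPolynomial (Fin n) ℚ}
      {r s : Fin n → ℕ} : Formula w n d p r → Formula w n d q s →
      Formula w n d (fun a => ∑ b, ∑ c, MvPolynomial.C (B a b c) * p b * q c) (r + s)

/-- The explicit set of points `(∑_{l<c} z_l ∏_{j ≠ i} (y_l - j))_{i<n}` with integers
`0 ≤ z_l ≤ D` and `0 ≤ y_l ≤ n * D`. -/
def points (n c D : ℕ) : Finset (Fin n → ℚ) :=
  ((Fintype.piFinset fun _ : Fin c => Finset.range (D + 1)) ×ˢ
    (Fintype.piFinset fun _ : Fin c => Finset.range (n * D + 1))).image
    fun p i => ∑ l : Fin c, (p.1 l : ℚ) * ∏ j ∈ Finset.univ.erase i, ((p.2 l : ℚ) - (j.val : ℚ))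

end Pool.Agent.Helper8.ReadKTree
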