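import Pool.Agent.Helper8.Tree.Main
import Pool.Agent.Helper8.Tree.Stmt

/-!
The final statement.
-/

namespace Pool.Agent.Helper8.Tree

open Module Matrix Pool.Agent.Helper8 ReadKTree
open Pool.Agent.Helper5 hiding put put_mem put_not_mem put_self isPolyMap_put exists_generic
  isPolyMap_gen exists_common_poly rho P

variable {w n : ℕ}

/-- degrees of the leaves -/
def Prog.DegLe (d : ℕ) : Prog ℚ w n → Prop
  | Prog.leaf _ F => ∀ a, (F a).natDegree ≤ d
  | Prog.node _ l r => l.DegLe d ∧ r.DegLe d

theorem totalDegree_aeval_X (i : Fin n) (F : Polynomial ℚ) :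
    (Polynomial.aeval (MvPolynomial.X i : MvPolynomial (Fin n) ℚ) F).totalDegree ≤
      F.natDegree := by
  rw [Polynomial.aeval_eq_sum_range]
  apply MvPolynomial.totalDegree_finsetSum_le
  intro j hj
  rw [Finset.mem_range] at hj
  refine (MvPolynomial.totalDegree_smul_le _ _).trans ?_
  refine (MvPolynomial.totalDegree_pow _ _).trans ?_
  rw [MvPolynomial.totalDegree_X]
  omega

theorem totalDegree_poly (d : ℕ) : ∀ (T : Prog ℚ w n), T.DegLe d → ∀ a,
    (T.poly a).totalDegree ≤ T.size * d
  | Prog.leaf i F, h, a => by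
    simp only [Prog.poly, Prog.size, one_mul]
    exact (totalDegree_aeval_X i (F a)).trans (h a)
  | Prog.node B l r, h, a => by
    simp only [Prog.poly]
    apply MvPolynomial.totalDegree_finsetSum_le
    intro b _
    apply MvPolynomial.totalDegree_finsetSum_le
    intro c _
    refine (MvPolynomial.totalDegree_mul _ _).trans ?_
    have h1 := totalDegree_poly d l h.1 b
    have h2 := totalDegree_poly d r h.2 c
    have h3 : (MvPolynomial.C (B a b c) * l.poly b).totalDegree ≤ l.size * d := by
      refine (MvPolynomial.totalDegree_mul _ _).trans ?_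
      rw [MvPolynomial.totalDegree_C, zero_add]
      exact h1
    calc _ ≤ l.size * d + r.size * d := Nat.add_le_add h3 h2
      _ = (Prog.node B l r).size * d := by rw [← Nat.add_mul]; rfl

theorem size_eq_sum : ∀ (T : Prog ℚ w n), T.size = ∑ i, T.cnt i
  | Prog.leaf i F => by simp [Prog.size, Prog.cnt]
  | Prog.node B l r => by
    simp only [Prog.size, Prog.cnt, Finset.sum_add_distrib, ← size_eq_sum]

theorem size_le {k : ℕ} (T : Prog ℚ w n) (hk : ∀ i, T.cnt i ≤ k) : T.size ≤ k * n := by
  rw [size_eq_sum]
  calc _ ≤ ∑ _i : Fin n, k := Finset.sum_le_sum fun i _ => hk i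
    _ = k * n := by simp [mul_comm]

theorem sum4 {M : Type*} [AddCommMonoid M] (f : Fin w → Fin w → Fin w → Fin w → M) :
    ∑ b, ∑ c, ∑ c', ∑ b', f b c c' b' = ∑ b', ∑ c', ∑ b, ∑ c, f b c c' b' := by
  conv_lhs => enter [2, b, 2, c]; rw [Finset.sum_comm]
  conv_lhs => enter [2, b]; rw [Finset.sum_comm]
  conv_lhs => enter [2, b, 2, b']; rw [Finset.sum_comm]
  rw [Finset.sum_comm]
  apply Finset.sum_congr rfl
  intro b' _
  rw [Finset.sum_comm]

/-- `Bilinear w n d p r`: the vector `p` is computed by a formula whose inner gates are bilinear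
maps. -/
inductive Bilinear (w n d : ℕ) : (Fin w → MvPolynomial (Fin n) ℚ) → (Fin n → ℕ) → Prop
  | const (v : Fin w → ℚ) : Bilinear w n d (fun a => MvPolynomial.C (v a)) 0
  | leaf (i : Fin n) (F : Fin w → Polynomial ℚ) (hF : ∀ a, (F a).natDegree ≤ d) :
      Bilinear w n d (fun a => Polynomial.aeval (MvPolynomial.X i) (F a)) (Pi.single i 1)
  | gate (B : Fin w → Fin w → Fin w → ℚ) {p q : Fin w → MvPolynomial (Fin n) ℚ}
      {r s : Fin n → ℕ} : Bilinear w n d p r → Bilinear w n d q s →
      Bilinear w n d (fun a => ∑ b, ∑ c, MvPolynomial.C (B a b c) * p b * q c) (r + s)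

/-- removing the constants -/
theorem exists_prog {d : ℕ} {p : Fin w → MvPolynomial (Fin n) ℚ} {r : Fin n → ℕ}
    (h : Bilinear w n d p r) :
    (∃ v : Fin w → ℚ, ∀ a, p a = MvPolynomial.C (v a)) ∨
    (∃ (T : Prog ℚ w n) (A : Fin w → Fin w → ℚ), (∀ i, T.cnt i ≤ r i) ∧ T.DegLe d ∧
      ∀ a, p a = ∑ b, MvPolynomial.C (A a b) * T.poly b) := by
  classical
  induction h with
  | const v => exact Or.inl ⟨v, fun _ => rfl⟩
  | leaf i F hF =>
    refine Or.inr ⟨Prog.leaf i F, fun a b => if a = b then 1 else 0, ?_, hF, ?_⟩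
    · intro j
      simp only [Prog.cnt]
      by_cases h : i = j
      · subst h; simp
      · simp [h]
    · intro a
      simp [Prog.poly]
  | @gate B p q r s _ _ ih1 ih2 =>
    rcases ih1 with ⟨v, hv⟩ | ⟨T, A, hT, hd, hp⟩
    · rcases ih2 with ⟨v', hv'⟩ | ⟨T', A', hT', hd', hp'⟩
      · refine Or.inl ⟨fun a => ∑ b, ∑ c, B a b c * v b * v' c, fun a => ?_⟩
        simp only [hv, hv', map_sum, map_mul]
      · refine Or.inr ⟨T', fun a b' => ∑ b, ∑ c, B a b c * v b * A' c b', ?_, hd', fun a => ?_⟩
        · intro i; exact (hT' i).trans (Nat.le_add_left _ _)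
        · simp only [hv, hp', map_sum, map_mul, Finset.mul_sum, Finset.sum_mul]
          rw [Finset.sum_comm' (t' := Finset.univ) (s' := fun _ => Finset.univ) (by simp)]
          conv_rhs => rw [Finset.sum_comm]
          conv_rhs => enter [2, b]; rw [Finset.sum_comm]
          conv_lhs => rw [Finset.sum_comm]
          apply Finset.sum_congr rfl
          intro b _
          apply Finset.sum_congr rfl
          intro c _
          apply Finset.sum_congr rfl
          intro b' _
          ring
    · rcases ih2 with ⟨v', hv'⟩ | ⟨T', A', hT', hd', hp'⟩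
      · refine Or.inr ⟨T, fun a b' => ∑ b, ∑ c, B a b c * A b b' * v' c, ?_, hd, fun a => ?_⟩
        · intro i; exact (hT i).trans (Nat.le_add_right _ _)
        · simp only [hv', hp, map_sum, map_mul, Finset.mul_sum, Finset.sum_mul]
          conv_rhs => rw [Finset.sum_comm]
          conv_rhs => enter [2, b]; rw [Finset.sum_comm]
          apply Finset.sum_congr rfl
          intro b _
          apply Finset.sum_congr rfl
          intro c _
          apply Finset.sum_congr rfl
          intro b' _
          ring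
      · refine Or.inr ⟨Prog.node (fun a b' c' => ∑ b, ∑ c, B a b c * A b b' * A' c c') T T',
          fun a b => if a = b then 1 else 0, ?_, ⟨hd, hd'⟩, fun a => ?_⟩
        · intro i; exact Nat.add_le_add (hT i) (hT' i)
        · have e : ∀ a, ∑ b, MvPolynomial.C ((if a = b then 1 else 0 : ℚ)) *
              (Prog.node (fun a b' c' => ∑ b, ∑ c, B a b c * A b b' * A' c c') T T').poly b =
              (Prog.node (fun a b' c' => ∑ b, ∑ c, B a b c * A b b' * A' c c') T T').poly a := by
            intro a
            simp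
          rw [e a]
          simp only [hp, hp', Prog.poly, map_sum, map_mul, Finset.mul_sum, Finset.sum_mul]
          rw [sum4]
          apply Finset.sum_congr rfl
          intro b' _
          apply Finset.sum_congr rfl
          intro c' _
          apply Finset.sum_congr rfl
          intro b _
          apply Finset.sum_congr rfl
          intro c _
          ring

/-- the exponent is `expo w k * (⌈log₂ (k n)⌉ + 1)` -/
def expo (w k : ℕ) : ℕ := (w + 1) * kap w k

theorem hit_bilinear (w k n d : ℕ) {p : Fin w → MvPolynomial (Fin n) ℚ} {r : Fin n → ℕ}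
    (h : Bilinear w n d p r) (hr : ∀ i, r i ≤ k) (a : Fin w) (ha : p a ≠ 0) :
    ∃ x ∈ points n (expo w k * (Nat.clog 2 (k * n) + 1)) (k * n * d),
      MvPolynomial.eval x (p a) ≠ 0 := by
  classical
  apply hit_grid
  · rcases exists_prog h with ⟨v, hv⟩ | ⟨T, A, hT, hd, hp⟩
    · rw [hv a, MvPolynomial.totalDegree_C]; exact Nat.zero_le _
    · rw [hp a]
      apply MvPolynomial.totalDegree_finsetSum_le
      intro b _
      refine (MvPolynomial.totalDegree_mul _ _).trans ?_
      rw [MvPolynomial.totalDegree_C, zero_add]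
      exact (totalDegree_poly d T hd b).trans
        (Nat.mul_le_mul_right _ (size_le T fun i => (hT i).trans (hr i)))
  · rcases exists_prog h with ⟨v, hv⟩ | ⟨T, A, hT, hd, hp⟩
    · rw [hv a] at ha ⊢
      refine ⟨fun _ => 0, ?_⟩
      rw [MvPolynomial.eval_C]
      intro h0
      apply ha
      rw [h0]; simp
    · have hev : ∀ x, MvPolynomial.eval x (p a) = A a ⬝ᵥ T.val x := by
        intro x
        rw [hp a]
        simp only [map_sum, map_mul, MvPolynomial.eval_C, T.eval_poly, dotProduct]
      obtain ⟨g, ⟨s, rfl⟩, hg⟩ := hit_tree (m := Nat.clog 2 (k * n)) T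
        (fun i => (hT i).trans (hr i)) ((size_le T fun i => (hT i).trans (hr i)).trans
          (Nat.le_pow_clog (by norm_num) _)) (A a) (by
          by_contra hcon
          push Not at hcon
          apply ha
          apply MvPolynomial.funext
          intro x
          rw [hev x, hcon x]; simp)
      obtain ⟨s', hs'⟩ := G_mono (n := n) (c' := expo w k * (Nat.clog 2 (k * n) + 1)) (by
        unfold expo
        have : kap w k ≤ (w + 1) * kap w k := Nat.le_mul_of_pos_left _ (Nat.succ_pos w)
        calc Nat.clog 2 (k * n) * ((w + 1) * kap w k) + kap w k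
            ≤ Nat.clog 2 (k * n) * ((w + 1) * kap w k) + (w + 1) * kap w k :=
              Nat.add_le_add_left this _
          _ = _ := by ring) (⟨s, rfl⟩ : gen n _ s ∈ Helper5.G n _)
      exact ⟨s', by rw [hs', hev]; exact hg⟩

/-- formulas over vectors as bilinear formulas of width `w + 1` -/
theorem bilinear_of_formula {d : ℕ} {p : Fin w → MvPolynomial (Fin n) ℚ} {r : Fin n → ℕ}
    (h : Formula w n d p r) :
    Bilinear (w + 1) n d (Fin.cons 1 p : Fin (w + 1) → MvPolynomial (Fin n) ℚ) r := by
  induction h with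
  | const v =>
    have := Bilinear.const (n := n) (d := d) (Fin.cons 1 v : Fin (w + 1) → ℚ)
    convert this using 1
    funext a
    refine Fin.cases ?_ (fun a => ?_) a <;> simp
  | leaf i F hF =>
    have := Bilinear.leaf (w := w + 1) (d := d) i (Fin.cons 1 F : Fin (w + 1) → Polynomial ℚ) (by
      intro a
      refine Fin.cases ?_ (fun a => ?_) a
      · simp
      · simpa using hF a)
    convert this using 1
    funext a
    refine Fin.cases ?_ (fun a => ?_) a <;> simp
  | @add f g r s _ _ ih1 ih2 =>
    have := Bilinear.gate (fun a b c : Fin (w + 1) => if (a = 0 ∧ b = 0 ∧ c = 0) ∨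
      (a ≠ 0 ∧ b = 0 ∧ c = a) ∨ (a ≠ 0 ∧ b = a ∧ c = 0) then 1 else 0) ih1 ih2
    convert this using 1
    funext a
    refine Fin.cases ?_ (fun a => ?_) a
    · simp [Fin.sum_univ_succ, Fin.succ_ne_zero]
    · have h0 : (0 : Fin (w + 1)) ≠ a.succ := (Fin.succ_ne_zero a).symm
      simp [Fin.sum_univ_succ, Fin.succ_ne_zero, h0, add_comm]
  | @gate B p q r s _ _ ih1 ih2 =>
    have := Bilinear.gate (fun a b c : Fin (w + 1) =>
      Fin.cases (motive := fun _ => ℚ) (if b = 0 ∧ c = 0 then 1 else 0)
        (fun a => Fin.cases (motive := fun _ => ℚ) 0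
          (fun b => Fin.cases (motive := fun _ => ℚ) 0 (fun c => B a b c) c) b) a) ih1 ih2
    convert this using 1
    funext a
    refine Fin.cases ?_ (fun a => ?_) a
    · simp [Fin.sum_univ_succ, Fin.succ_ne_zero]
    · simp [Fin.sum_univ_succ]

theorem hit_formula (w k n d : ℕ) {p : Fin w → MvPolynomial (Fin n) ℚ} {r : Fin n → ℕ}
    (h : Formula w n d p r) (hr : ∀ i, r i ≤ k) (a : Fin w) (ha : p a ≠ 0) :
    ∃ x ∈ points n (expo (w + 1) k * (Nat.clog 2 (k * n) + 1)) (k * n * d),
      MvPolynomial.eval x (p a) ≠ 0 := by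
  have := hit_bilinear (w + 1) k n d (bilinear_of_formula h) hr a.succ (by simpa using ha)
  simpa using this

theorem card_points (n c D : ℕ) :
    (points n c D).card ≤ ((D + 1) * (n * D + 1)) ^ c := card_hittingSet n c D

end Pool.Agent.Helper8.Tree
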