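import Pool.Agent.Helper8.Tree.SpineLevel
import Pool.Agent.Helper8.Loc.Final

/-!
Induction on the size.
-/

namespace Pool.Agent.Helper8.Tree

open Module Matrix Pool.Agent.Helper8
open Pool.Agent.Helper5 hiding put put_mem put_not_mem put_self isPolyMap_put exists_generic
  isPolyMap_gen exists_common_poly rho P
open Pool.Agent.Helper8.Loc (put put_mem put_not_mem put_self isPolyMap_put)

variable {w n : ℕ}

theorem G_nonempty (n c : ℕ) : (Helper5.G n c).Nonempty := ⟨gen n c fun _ => 0, ⟨_, rfl⟩⟩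

/-- a point of `G n c` which is generic for finitely many lists of frames -/
theorem G_best (c : ℕ) (J : Finset (List (Frame ℚ w n))) :
    ∃ g ∈ Helper5.G n c, ∀ D ∈ J, ∀ g' ∈ Helper5.G n c, (cmat D g').rank ≤ (cmat D g).rank := by
  classical
  set r : List (Frame ℚ w n) → ℕ := fun D =>
    Nat.findGreatest (fun r => ∃ g ∈ Helper5.G n c, r ≤ (cmat D g).rank) w with hr
  have hle : ∀ D, ∀ g' ∈ Helper5.G n c, (cmat D g').rank ≤ r D := by
    intro D g' hg'
    apply Nat.le_findGreatest (Matrix.rank_le_width _)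
    exact ⟨g', hg', le_rfl⟩
  have hex : ∀ D, ∃ g ∈ Helper5.G n c, r D ≤ (cmat D g).rank := by
    intro D
    obtain ⟨g, hg⟩ := G_nonempty n c
    exact Nat.findGreatest_spec (P := fun r => ∃ g ∈ Helper5.G n c, r ≤ (cmat D g).rank)
      (Nat.zero_le w) ⟨g, hg, Nat.zero_le _⟩
  have h1 : ∀ D, ∃ (U : Matrix (Fin (r D)) (Fin w) ℚ) (V : Matrix (Fin w) (Fin (r D)) ℚ),
      ∃ s, (U * cmat D (gen n c s) * V).det ≠ 0 := by
    intro D
    obtain ⟨g, ⟨s, rfl⟩, hr⟩ := hex D
    obtain ⟨U, V, hUV⟩ := exists_mul_eq_one_of_le_rank _ hr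
    exact ⟨U, V, s, by rw [hUV, Matrix.det_one]; exact one_ne_zero⟩
  choose U V hUV using h1
  have h2 : ∀ D : List (Frame ℚ w n), ∃ p : MvPolynomial (Fin c ⊕ Fin c) ℚ, ∀ s,
      MvPolynomial.eval s p = (U D * cmat D (gen n c s) * V D).det := by
    intro D
    obtain ⟨p, hp⟩ := det_poly' (cpoly D) (Loc.isPolyMap_gen n c) (U D) (V D)
    exact ⟨p, fun s => by rw [hp s, eval_cpoly]⟩
  choose p hp using h2
  obtain ⟨s, hs⟩ := Loc.exists_common_poly J p (fun D _ => by
    obtain ⟨s, hs⟩ := hUV D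
    exact ⟨s, by rw [hp]; exact hs⟩)
  refine ⟨gen n c s, ⟨s, rfl⟩, fun D hD g' hg' => ?_⟩
  have := hs D hD
  rw [hp] at this
  exact (hle D g' hg').trans (le_rank_of_det_ne_zero _ _ this)

/-- goodness of a whole finite family on `G n c` -/
theorem G_good (c : ℕ) (J : Finset (List (Frame ℚ w n)))
    (h : ∀ D ∈ J, ∃ g ∈ Helper5.G n c, GoodAt g D) :
    ∃ g ∈ Helper5.G n c, ∀ D ∈ J, GoodAt g D := by
  obtain ⟨g, hg, hb⟩ := G_best c J
  refine ⟨g, hg, fun D hD g' => ?_⟩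
  obtain ⟨g1, hg1, h1⟩ := h D hD
  exact (h1 g').trans (hb D hD g1 hg1)

theorem spine_good [Inhabited (Frame ℚ w n)] {k : ℕ} {T T0 : Prog ℚ w n}
    {C : List (Frame ℚ w n)} (hC : Path T C T0) (hk : ∀ i, T.cnt i ≤ k) (c0 : ℕ)
    (h0 : ∃ g ∈ Helper5.G n c0, AllGood g T0)
    (hsib : ∀ f ∈ C, ∃ g ∈ Helper5.G n c0, AllGood g f.2) :
    ∃ γ ∈ Helper5.G n (c0 + w * kap w k), AllGood γ T0 ∧ (∀ f ∈ C, AllGood γ f.2) ∧
      ∀ D, D <:+: C → GoodAt γ D := by
  classical
  set Γ : Set (Fin n → ℚ) := {γ | ∀ f ∈ C, AllGood γ f.2} with hΓ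
  set G' : ℕ → Set (Fin n → ℚ) := fun c => {g ∈ Helper5.G n (c0 + c) | g ∈ Γ} with hG'
  -- all lists to be kept good
  set J0 : Finset (List (Frame ℚ w n)) := (finite_inside T).toFinset with hJ0
  have hJ0mem : ∀ D, D ∈ J0 ↔ Inside T D := by
    intro D; rw [hJ0, Set.Finite.mem_toFinset]; rfl
  have hbest : ∀ c (J : Finset (List (Frame ℚ w n))), ∃ g ∈ G' c, ∀ D ∈ J,
      ∀ g' ∈ Helper5.G n (c0 + c), (cmat D g').rank ≤ (cmat D g).rank := by
    intro c J
    obtain ⟨g, hg, hb⟩ := G_best (c0 + c) (J ∪ J0)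
    refine ⟨g, ⟨hg, ?_⟩, fun D hD => hb D (Finset.mem_union_left _ hD)⟩
    intro f hf D hD g'
    obtain ⟨C1, h1⟩ := hC.sibling_mem hf
    obtain ⟨g1, hg1, h2⟩ := hsib f hf
    refine (h2 D hD g').trans (hb D (Finset.mem_union_right _ ?_) g1 (G_mono (by omega) hg1))
    rw [hJ0mem]
    exact Inside.of_path h1 hD
  obtain ⟨γ, hγ, hγgood⟩ := rlevel (fun j => fpoly (wd C j)) Γ C.length (kap w k) (kap w k)
    (rcrit hC hk) G' (fun c g hg => hg.2) (by
      obtain ⟨g, hg, _⟩ := hbest 0 ∅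
      exact ⟨g, hg⟩)
    (fun c c' hcc g hg => ⟨G_mono (by omega) hg.1, hg.2⟩)
    (by
      intro c J r h
      obtain ⟨g, hg, hb⟩ := hbest c (J.image fun ab => segL C ab.1 ab.2)
      refine ⟨g, hg, fun ab hab => ?_⟩
      obtain ⟨g1, hg1, h1⟩ := h ab hab
      rw [P_eq_cmat] at h1 ⊢
      exact h1.trans (hb _ (Finset.mem_image_of_mem _ hab) g1 hg1.1))
    (by
      intro c g hg a b hab hbN R hR U V hnear
      obtain ⟨x', S, hS, hx, hdet⟩ := hnear
      obtain ⟨g', hg', hb⟩ := hbest (c + kap w k) {segL C a b}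
      refine ⟨g', hg', ?_⟩
      have h1 : R ≤ (Loc.P (fun j => fpoly (wd C j)) x' a b).rank :=
        le_rank_of_det_ne_zero _ _ hdet
      rw [P_eq_cmat] at h1 ⊢
      have h2 : x' ∈ Helper5.G n (c0 + (c + kap w k)) := by
        rw [← Nat.add_assoc]
        exact G_step hg.1 x' S hS hx
      exact h1.trans (hb _ (Finset.mem_singleton_self _) x' h2))
    w le_rfl
  -- a common point
  obtain ⟨g, hg, hb⟩ := G_best (c0 + w * kap w k) J0
  have hsub : ∀ {T' : Prog ℚ w n} {C1 : List (Frame ℚ w n)}, Path T C1 T' →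
      (∃ g ∈ Helper5.G n c0, AllGood g T') → AllGood g T' := by
    intro T' C1 h1 h2 D hD g'
    obtain ⟨g1, hg1, h3⟩ := h2
    refine (h3 D hD g').trans (hb D ?_ g1 (G_mono (by omega) hg1))
    rw [hJ0mem]
    exact Inside.of_path h1 hD
  refine ⟨g, hg, hsub hC h0, fun f hf => ?_, fun D hD g' => ?_⟩
  · obtain ⟨C1, h1⟩ := hC.sibling_mem hf
    exact hsub h1 (hsib f hf)
  · obtain ⟨a, b, hab, hbl, rfl⟩ := infix_iff_segL hD
    have h1 : (cmat (segL C a b) g').rank ≤ (cmat (segL C a b) γ).rank := by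
      rw [← P_eq_cmat, ← P_eq_cmat]
      refine (Loc.rank_le_rho (fun j => fpoly (wd C j)) g' a b).trans ?_
      rcases Nat.eq_zero_or_pos (Loc.rho (fun j => fpoly (wd C j)) a b) with h0 | h0
      · rw [h0]; exact Nat.zero_le _
      · exact hγgood a b hab hbl (by omega)
    refine h1.trans (hb _ ?_ γ hγ.1)
    rw [hJ0mem]
    exact Inside.of_infix hC (segL_infix C hab hbl)

/-- the critical lemma applied on the points of `G n c` -/
theorem good_of_RA {T : Prog ℚ w n} {D : List (Frame ℚ w n)} {c κ : ℕ}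
    {γ : Fin n → ℚ} (hγ : γ ∈ Helper5.G n c) (β : ℕ → ℕ) (t : ℕ) (hβ : β (q0 w t) ≤ κ)
    (hRA : ∀ (y : Fin n → ℚ) (S : Finset (Fin n)), Trans T γ y S →
      RA w n γ y S β t (fun g => cmat D g)) :
    ∃ g ∈ Helper5.G n (c + κ), GoodAt g D := by
  obtain ⟨x, hx⟩ := exists_rank_eq_gr D
  obtain ⟨U, V, hUV⟩ := exists_mul_eq_one_of_le_rank (cmat D x) hx.ge
  obtain ⟨x', S, hS, h1, h2⟩ := crit_list (γ := γ) (T := T) (gr_le D) U V β t hRA
    ⟨x, by rw [hUV, Matrix.det_one]; exact one_ne_zero⟩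
  refine ⟨x', G_step hγ x' S (hS.trans hβ) h1, ?_⟩
  rw [goodAt_iff]
  exact le_rank_of_det_ne_zero _ _ h2

theorem step_good [Inhabited (Frame ℚ w n)] {k : ℕ} {T T0 : Prog ℚ w n}
    {C : List (Frame ℚ w n)} (hC : Path T C T0) (hk : ∀ i, T.cnt i ≤ k) (c : ℕ)
    (γ : Fin n → ℚ) (hγ : γ ∈ Helper5.G n c) (h0 : AllGood γ T0)
    (hsib : ∀ f ∈ C, AllGood γ f.2) (hinf : ∀ D, D <:+: C → GoodAt γ D) :
    ∃ g ∈ Helper5.G n (c + kap w k), AllGood g T := by
  classical
  have hctx : ∀ {y : Fin n → ℚ} {S : Finset (Fin n)}, Trans T γ y S → ∀ {E}, E <:+: C →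
      RA w n γ y S (bnd k).2 (2 ^ k) (fun g => cmat E g) := by
    intro y S htr E hE
    have hin := Inside.of_infix hC hE
    apply RA.ctx
    · exact htr.mixCtx hin (fun D' hD' => hinf D' (hD'.trans hE))
        (fun f hf => hsib f (hE.subset hf))
    · intro i; exact (hin.ccnt_le i).trans (hk i)
  have hctx' : ∀ {y : Fin n → ℚ} {S : Finset (Fin n)}, Trans T γ y S →
      ∀ {T' : Prog ℚ w n} {C1 : List (Frame ℚ w n)}, Path T C1 T' → AllGood γ T' →
      ∀ {E}, Inside T' E → RA w n γ y S (bnd k).2 (2 ^ k) (fun g => cmat E g) := by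
    intro y S htr T' C1 h1 h2 E hE
    apply RA.ctx
    · exact htr.mixCtx_of_allGood h1 h2 hE
    · intro i; exact ((hE.ccnt_le i).trans (h1.cnt_le i)).trans (hk i)
  have key : ∀ D, Inside T D → ∃ g ∈ Helper5.G n (c + kap w k), GoodAt g D := by
    intro D hD
    have hstay : GoodAt γ D → ∃ g ∈ Helper5.G n (c + kap w k), GoodAt g D :=
      fun h => ⟨γ, G_mono (by omega) hγ, h⟩
    rcases inside_cases hC hD with ⟨f, hf, h1⟩ | h1 | h1 | ⟨E, F, rfl, hE, hF⟩ |
      ⟨P, f, f', E, E', rfl, hP, hE, hf, hE', hpath⟩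
    · exact hstay (hsib f hf D h1)
    · exact hstay (h0 D h1)
    · exact hstay (hinf D h1)
    · refine good_of_RA (T := T) hγ (fun q => (bnd k).2 ((bnd k).2 q)) (4 * 2 ^ k)
        (by unfold kap; omega) ?_
      intro y S htr
      exact (((hctx htr hE).mul (hctx' htr hC h0 hF)).mono (t' := 4 * 2 ^ k)
        (by omega)).congr fun g => cmat_append E F g
    · refine good_of_RA (T := T) hγ
        (fun q => (bnd k).2 ((bnd k).2 ((bnd k).1 ((bnd k).2 q)))) (4 * 2 ^ k)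
        (by unfold kap; omega) ?_
      intro y S htr
      obtain ⟨C1, h1⟩ := hC.sibling_mem hf
      have hT0 : RA w n γ y S (bnd k).1 (2 ^ k) (fun g => col (T0.val g)) :=
        RA.tree (htr.mixHG hC h0) fun i => (hC.cnt_le i).trans (hk i)
      have hfr : RA w n γ y S (fun q => (bnd k).2 ((bnd k).1 q)) (2 ^ k + 2 ^ k)
          (fun g => fmat f' g) := by
        refine (((hctx htr hE).mul hT0).linear (flin f')).congr fun g => ?_
        rw [← col_mulVec, ← hpath.val g]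
        exact (flin_col f' g).symm
      refine ((((hctx htr hP).mul hfr).mul (hctx' htr h1 (hsib f hf) hE')).mono
        (t' := 4 * 2 ^ k) (by omega)).congr fun g => ?_
      rw [cmat_append, cmat_cons, Matrix.mul_assoc]
  obtain ⟨g, hg, hgood⟩ := G_good (c + kap w k) (finite_inside T).toFinset
    (fun D hD => key D (by rwa [Set.Finite.mem_toFinset] at hD))
  exact ⟨g, hg, fun D hD => hgood D (by rwa [Set.Finite.mem_toFinset])⟩

theorem allGood_of_size {k : ℕ} : ∀ (m : ℕ) (T : Prog ℚ w n), (∀ i, T.cnt i ≤ k) →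
    T.size ≤ 2 ^ m → ∃ g ∈ Helper5.G n (m * ((w + 1) * kap w k)), AllGood g T
  | 0, T, hk, hs => by
    obtain ⟨g, hg⟩ := G_nonempty n 0
    refine ⟨g, by simpa using hg, ?_⟩
    cases T with
    | leaf i F =>
      intro D hD g'
      obtain ⟨C0, v, u, h1, h2⟩ := hD
      cases h1
      cases h2
      rw [cmat_nil, cmat_nil]
    | node B l r =>
      exfalso
      have h1 := l.size_pos
      have h2 := r.size_pos
      simp only [Prog.size, pow_zero] at hs
      omega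
  | m + 1, T, hk, hs => by
    have : Inhabited (Frame ℚ w n) := ⟨(0, T)⟩
    obtain ⟨C, T0, hC, h1, h2⟩ := exists_spine (2 ^ m) Nat.one_le_two_pow T
      (by rw [pow_succ] at hs; omega)
    have ih0 := allGood_of_size m T0 (fun i => (hC.cnt_le i).trans (hk i)) h1
    have ihs : ∀ f ∈ C, ∃ g ∈ Helper5.G n (m * ((w + 1) * kap w k)), AllGood g f.2 := by
      intro f hf
      obtain ⟨C1, h3⟩ := hC.sibling_mem hf
      exact allGood_of_size m f.2 (fun i => (h3.cnt_le i).trans (hk i)) (h2 f hf)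
    obtain ⟨γ, hγ, g1, g2, g3⟩ := spine_good hC hk _ ih0 ihs
    obtain ⟨g, hg, hgood⟩ := step_good hC hk _ γ hγ g1 g2 g3
    refine ⟨g, ?_, hgood⟩
    have : (m + 1) * ((w + 1) * kap w k) =
        m * ((w + 1) * kap w k) + w * kap w k + kap w k := by ring
    rw [this]; exact hg

/-- **Hitting theorem** for tree programs. -/
theorem hit_tree {k m : ℕ} (T : Prog ℚ w n) (hk : ∀ i, T.cnt i ≤ k) (hs : T.size ≤ 2 ^ m)
    (u : Fin w → ℚ) (hx : ∃ x, u ⬝ᵥ T.val x ≠ 0) :
    ∃ g ∈ Helper5.G n (m * ((w + 1) * kap w k) + kap w k), u ⬝ᵥ T.val g ≠ 0 := by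
  classical
  have : Inhabited (Frame ℚ w n) := ⟨(0, T)⟩
  obtain ⟨γ, hγ, hgood⟩ := allGood_of_size m T hk hs
  have hw : 1 ≤ w := by
    by_contra h
    have : w = 0 := by omega
    subst this
    obtain ⟨x, hx⟩ := hx
    simp [dotProduct] at hx
  -- the functional as a 1 × 1 matrix
  let H : Matrix (Fin w) (Fin 1) ℚ →ₗ[ℚ] Matrix (Fin 1) (Fin 1) ℚ :=
    { toFun := fun X => Matrix.of fun _ _ => u ⬝ᵥ fun i => X i 0
      map_add' := fun X Y => by
        ext a b
        simp only [Matrix.of_apply, Matrix.add_apply, dotProduct]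
        rw [← Finset.sum_add_distrib]
        apply Finset.sum_congr rfl
        intro i _; ring
      map_smul' := fun c X => by
        ext a b
        simp only [Matrix.of_apply, Matrix.smul_apply, dotProduct, smul_eq_mul,
          RingHom.id_apply, Finset.mul_sum]
        apply Finset.sum_congr rfl
        intro i _; ring }
  have hH : ∀ g, (H (col (T.val g))).det = u ⬝ᵥ T.val g := by
    intro g
    rw [Matrix.det_fin_one]
    rfl
  obtain ⟨x', S, hS, h1, h2⟩ := crit_gen T γ hw (fun g => H (col (T.val g)))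
    (∑ a, MvPolynomial.C (u a) * T.poly a) (by
      intro g
      rw [hH]
      simp only [map_sum, map_mul, MvPolynomial.eval_C, T.eval_poly]
      rfl) (bnd k).1 (4 * 2 ^ k)
    (fun y S htr => ((RA.tree (htr.mixHG (Path.nil T) hgood) hk).mono (by
      have := Nat.one_le_two_pow (n := k)
      omega)).linear H) (by
      obtain ⟨x, hx⟩ := hx
      exact ⟨x, by rw [hH]; exact hx⟩)
  rw [hH] at h2
  refine ⟨x', G_step hγ x' S (hS.trans ?_) h1, h2⟩
  unfold kap
  omega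

end Pool.Agent.Helper8.Tree
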