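import Pool.Agent.Helper8.Tree.Spine

/-!
The critical lemma in the form used at the top level.
-/

namespace Pool.Agent.Helper8.Tree

open Module Matrix Pool.Agent.Helper8
open Pool.Agent.Helper5 hiding put put_mem put_not_mem put_self isPolyMap_put exists_generic
open Pool.Agent.Helper8.Loc (put put_mem put_not_mem put_self isPolyMap_put)

variable {K : Type*} [Field K] {w n : ℕ}

section GR

/-- generic rank -/
noncomputable def gr (C : List (Frame K w n)) : ℕ := by
  classical
  exact Nat.findGreatest (fun r => ∃ g : Fin n → K, r ≤ (cmat C g).rank) w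

theorem rank_le_gr (g : Fin n → K) (C : List (Frame K w n)) : (cmat C g).rank ≤ gr C := by
  classical
  unfold gr
  apply Nat.le_findGreatest
  · exact Matrix.rank_le_width _
  · exact ⟨g, le_rfl⟩

theorem exists_rank_eq_gr (C : List (Frame K w n)) : ∃ g : Fin n → K, (cmat C g).rank = gr C := by
  classical
  have h : ∃ g : Fin n → K, gr C ≤ (cmat C g).rank := by
    unfold gr
    exact Nat.findGreatest_spec (P := fun r => ∃ g : Fin n → K, r ≤ (cmat C g).rank)
      (Nat.zero_le w) ⟨fun _ => 0, Nat.zero_le _⟩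
  obtain ⟨g, hg⟩ := h
  exact ⟨g, le_antisymm (rank_le_gr g C) hg⟩

theorem gr_le (C : List (Frame K w n)) : gr C ≤ w := by
  obtain ⟨g, hg⟩ := exists_rank_eq_gr C
  rw [← hg]; exact Matrix.rank_le_width _

theorem goodAt_iff {g : Fin n → K} {C : List (Frame K w n)} :
    GoodAt g C ↔ gr C ≤ (cmat C g).rank := by
  constructor
  · intro h
    obtain ⟨g', hg'⟩ := exists_rank_eq_gr C
    rw [← hg']; exact h g'
  · intro h g'
    exact (rank_le_gr g' C).trans h

end GR

section Crit

variable {γ y : Fin n → K} {S : Finset (Fin n)}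

/-- transfer of goodness from `γ` to all mixtures -/
def Trans (T : Prog K w n) (γ y : Fin n → K) (S : Finset (Fin n)) : Prop :=
  ∀ D, Inside T D → GoodAt γ D → MixGood γ y S D

theorem Trans.mixHG {T T' : Prog K w n} (h : Trans T γ y S) {C : List (Frame K w n)}
    (hT' : Path T C T') (hg : AllGood γ T') : MixHG γ y S T' :=
  fun D hD => h D (Inside.of_path hT' hD) (hg D hD)

theorem Trans.mixCtx {T : Prog K w n} (h : Trans T γ y S) {D : List (Frame K w n)}
    (hD : Inside T D) (hgood : ∀ D', D' <:+: D → GoodAt γ D') (hsib : ∀ f ∈ D, AllGood γ f.2) :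
    MixCtx γ y S D := by
  refine ⟨fun D1 D' D2 e => ?_, fun f hf => ?_⟩
  · have hi : D' <:+: D := ⟨D1, D2, e.symm⟩
    exact h D' (hD.ofSublist hi) (hgood D' hi)
  · obtain ⟨C0, v, u, h1, h2⟩ := hD
    obtain ⟨C1, h3⟩ := h2.sibling_mem hf
    exact h.mixHG (h1.trans h3) (hsib f hf)

theorem AllGood.sub {T T' : Prog K w n} (h : AllGood γ T) {C : List (Frame K w n)}
    (hC : Path T C T') : AllGood γ T' := fun D hD => h D (Inside.of_path hC hD)

theorem Trans.mixCtx_of_allGood {T T' : Prog K w n} (h : Trans T γ y S)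
    {C : List (Frame K w n)} (hT' : Path T C T') (hg : AllGood γ T') {D : List (Frame K w n)}
    (hD : Inside T' D) : MixCtx γ y S D := by
  refine h.mixCtx (Inside.of_path hT' hD) (fun D' hD' => hg D' (hD.ofSublist hD')) ?_
  intro f hf
  obtain ⟨C0, v, u, h1, h2⟩ := hD
  obtain ⟨C1, h3⟩ := h2.sibling_mem hf
  exact (hg.sub h1).sub h3

/-- **Critical lemma.** -/
theorem crit_gen [Infinite K] (T : Prog K w n) (γ : Fin n → K) {R : ℕ} (hR : R ≤ w)
    (F : (Fin n → K) → Matrix (Fin R) (Fin R) K) (p0 : MvPolynomial (Fin n) K)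
    (hp0 : ∀ g, MvPolynomial.eval g p0 = (F g).det) (β : ℕ → ℕ) (t : ℕ)
    (hRA : ∀ (y : Fin n → K) (S : Finset (Fin n)), Trans T γ y S → RA w n γ y S β t F)
    (hx : ∃ x, (F x).det ≠ 0) :
    ∃ (x' : Fin n → K) (S : Finset (Fin n)), S.card ≤ β (q0 w t) ∧ (∀ i, i ∉ S → x' i = γ i) ∧
      (F x').det ≠ 0 := by
  classical
  obtain ⟨_, i0, _, _⟩ := exists_leaf_path T
  -- minimal size
  have hex : ∃ m, ∃ (S : Finset (Fin n)) (y : Fin n → K), S.card = m ∧
      (F (put γ S y)).det ≠ 0 := by
    obtain ⟨x, hx⟩ := hx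
    refine ⟨_, Finset.univ, x, rfl, ?_⟩
    have : put γ Finset.univ x = x := by funext i; simp [put]
    rw [this]; exact hx
  obtain ⟨S, y0, hcard, hdet⟩ := Nat.find_spec hex
  have hmin : ∀ (S' : Finset (Fin n)) (y' : Fin n → K), S'.card < S.card →
      (F (put γ S' y')).det = 0 := by
    intro S' y' hlt
    by_contra hne
    rw [hcard] at hlt
    exact Nat.find_min hex hlt ⟨S', y', rfl, hne⟩
  obtain ⟨y, hdet', hrank⟩ := exists_generic (w := w) γ y0 S
    ((finite_inside T).toFinset.filter fun D => GoodAt γ D) p0 (by rw [hp0]; exact hdet)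
  rw [hp0] at hdet'
  have htr : Trans T γ y S := by
    intro D hD hgood τ hτ
    have h1 := hrank τ hτ D (by
      rw [Finset.mem_filter, Set.Finite.mem_toFinset]
      exact ⟨hD, hgood⟩)
    intro g'
    exact (hgood g').trans h1
  refine ⟨put γ S y, S, ?_, fun i hi => put_not_mem hi, hdet'⟩
  apply le_of_lt
  exact crit_abs hR F t γ y S hdet' (fun τ hτ => hmin τ y (Finset.card_lt_card hτ))
    (β (q0 w t)) i0 (fun s A hA hinj => hRA y S htr s (q0 w t) A hA hinj)

end Crit

end Pool.Agent.Helper8.Tree
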