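import Pool.Agent.Helper8.Tree.Comb

/-!
The representation lemma for trees and contexts, by simultaneous induction on the number of
occurrences.
-/

namespace Pool.Agent.Helper8.Tree

open Module Matrix Pool.Agent.Helper5 Pool.Agent.Helper8

variable {K : Type*} [Field K] {w n : ℕ} {γ y : Fin n → K} {S : Finset (Fin n)} {s : ℕ → Fin n}

/-- a vector as a column -/
def col {m : ℕ} (v : Fin m → K) : Matrix (Fin m) (Fin 1) K := Matrix.of fun i _ => v i

theorem col_mulVec {m p : ℕ} (A : Matrix (Fin m) (Fin p) K) (v : Fin p → K) :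
    col (A *ᵥ v) = A * col v := by
  ext i j
  simp [col, Matrix.mul_apply, Matrix.mulVec, dotProduct]

/-- the matrix of a frame as a linear function of the value of the sibling -/
def flin (f : Frame K w n) : Matrix (Fin w) (Fin 1) K →ₗ[K] Matrix (Fin w) (Fin w) K where
  toFun X := Matrix.of fun a b => ∑ c, f.1 a b c * X c 0
  map_add' X Y := by
    ext a b
    simp [mul_add, Finset.sum_add_distrib]
  map_smul' r X := by
    ext a b
    simp only [Matrix.of_apply, Matrix.smul_apply, smul_eq_mul, RingHom.id_apply, Finset.mul_sum]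
    apply Finset.sum_congr rfl
    intro c _
    ring

theorem flin_col (f : Frame K w n) (g : Fin n → K) : flin f (col (f.2.val g)) = fmat f g := by
  ext a b
  simp [flin, col, fmat]

theorem val_const {T : Prog K w n} {B : Finset ℕ} (hB : ∀ l ∈ B, T.cnt (s l) = 0)
    {σ : ℕ → Prop} (hσ : ∀ l, l ∉ B → σ l) :
    T.val (pt γ y S s σ) = T.val (pt γ y S s fun _ => True) := by
  apply Prog.val_congr
  intro i hi
  apply pt_congr
  intro l hl
  have : l ∉ B := by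
    intro h
    have := hB l h
    rw [hl] at this
    omega
  simp [hσ l this]

theorem fmat_const {f : Frame K w n} {B : Finset ℕ} (hB : ∀ l ∈ B, f.2.cnt (s l) = 0)
    {σ : ℕ → Prop} (hσ : ∀ l, l ∉ B → σ l) :
    fmat f (pt γ y S s σ) = fmat f (pt γ y S s fun _ => True) := by
  unfold fmat
  rw [val_const hB hσ]

theorem cmat_const {C : List (Frame K w n)} {B : Finset ℕ} (hB : ∀ l ∈ B, ccnt (s l) C = 0)
    {σ : ℕ → Prop} (hσ : ∀ l, l ∉ B → σ l) :
    cmat C (pt γ y S s σ) = cmat C (pt γ y S s fun _ => True) := by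
  induction C with
  | nil => rfl
  | cons f C ih =>
    have h1 : ∀ l ∈ B, f.2.cnt (s l) = 0 ∧ ccnt (s l) C = 0 := by
      intro l hl
      have := hB l hl
      simp only [ccnt, List.map_cons, List.sum_cons] at this
      unfold ccnt
      omega
    rw [cmat_cons, cmat_cons, fmat_const (fun l hl => (h1 l hl).1) hσ, ih fun l hl => (h1 l hl).2]

theorem seg_const {Cf : ℕ → Frame K w n} {a b : ℕ} {B : Finset ℕ}
    (hB : ∀ l ∈ B, ∀ j, a ≤ j → j < b → (Cf j).2.cnt (s l) = 0)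
    {σ : ℕ → Prop} (hσ : ∀ l, l ∉ B → σ l) :
    seg (fun j => fmat (Cf j) (pt γ y S s σ)) a b =
      seg (fun j => fmat (Cf j) (pt γ y S s fun _ => True)) a b := by
  apply seg_congr
  intro j h1 h2
  exact fmat_const (fun l hl => hB l hl j h1 h2) hσ

/-- a pass from a chain of intervals -/
theorem rep_chain {Cf : ℕ → Frame K w n} {a b : ℕ} (hab : a ≤ b)
    (hgood : ∀ i j, a ≤ i → i ≤ j → j ≤ b → GoodSeg γ y S s Cf i j)
    {B : Finset ℕ} (f g : ℕ → ℕ) (hf : ∀ l ∈ B, a ≤ f l) (hg : ∀ l ∈ B, g l < b)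
    (hfg : ∀ l ∈ B, f l ≤ g l)
    (hocc : ∀ l ∈ B, ∀ j, a ≤ j → j < b → 0 < (Cf j).2.cnt (s l) → f l ≤ j ∧ j ≤ g l)
    (hR : (∀ i ∈ B, ∀ j ∈ B, i < j → g i < f j) ∨ (∀ i ∈ B, ∀ j ∈ B, i < j → g j < f i)) :
    Rep w n γ y S s B 1 (fun σ => seg (fun j => fmat (Cf j) (pt γ y S s σ)) a b) := by
  rcases hR with hR | hR
  · obtain ⟨x, hx1, hx2, hx3⟩ := cut_inc hab f g hf hg hR
    refine Rep.pass (dir := true) (x := x) hab ⟨hx1, fun _ => ⟨hx2, ?_⟩, by simp, hgood⟩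
    intro j h1 h2 l hl hj
    have h3 := hocc l hl j h1 h2 hj
    have h4 := hx3 l hl
    omega
  · obtain ⟨x, hx1, hx2, hx3⟩ := cut_dec f g hf hg hfg hab hR
    refine Rep.pass (dir := false) (x := x) hab ⟨hx1, by simp, fun _ => ⟨hx2, ?_⟩, hgood⟩
    intro j h1 h2 l hl hj
    have h3 := hocc l hl j h1 h2 hj
    have h4 := hx3 l hl
    omega

/-- statement for trees -/
def PA (γ y : Fin n → K) (S : Finset (Fin n)) (s : ℕ → Fin n) (w k : ℕ) (bA : ℕ → ℕ) : Prop :=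
  ∀ (q : ℕ) (T : Prog K w n) (A : Finset ℕ), HG γ y S s T → bA q ≤ A.card →
    (∀ i ∈ A, ∀ j ∈ A, s i = s j → i = j) → (∀ l ∈ A, T.cnt (s l) ≤ k) →
    ∃ B ⊆ A, q ≤ B.card ∧ Rep w n γ y S s B (2 ^ k) (fun σ => col (T.val (pt γ y S s σ)))

/-- statement for contexts -/
def PB (γ y : Fin n → K) (S : Finset (Fin n)) (s : ℕ → Fin n) (w k : ℕ) (bB : ℕ → ℕ) : Prop :=
  ∀ (q : ℕ) (Cf : ℕ → Frame K w n) (a b : ℕ) (A : Finset ℕ), a ≤ b →
    (∀ i j, a ≤ i → i ≤ j → j ≤ b → GoodSeg γ y S s Cf i j) →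
    (∀ j, a ≤ j → j < b → HG γ y S s (Cf j).2) → bB q ≤ A.card →
    (∀ i ∈ A, ∀ j ∈ A, s i = s j → i = j) →
    (∀ l ∈ A, ∑ j ∈ Finset.Ico a b, (Cf j).2.cnt (s l) ≤ k) →
    ∃ B ⊆ A, q ≤ B.card ∧
      Rep w n γ y S s B (2 ^ k) (fun σ => seg (fun j => fmat (Cf j) (pt γ y S s σ)) a b)

theorem PA_zero [Inhabited (Frame K w n)] : PA γ y S s w 0 (fun q => q) := by
  intro q T A _ hA _ hk
  refine ⟨A, subset_rfl, hA, ?_⟩
  refine (Rep.const _ ?_).mono subset_rfl (Nat.zero_le _)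
  intro σ hσ
  rw [val_const (fun l hl => Nat.le_zero.mp (hk l hl)) hσ]

theorem PB_zero [Inhabited (Frame K w n)] : PB γ y S s w 0 (fun q => q) := by
  intro q Cf a b A _ _ _ hA _ hk
  refine ⟨A, subset_rfl, hA, ?_⟩
  refine (Rep.const _ ?_).mono subset_rfl (Nat.zero_le _)
  intro σ hσ
  refine seg_const ?_ hσ
  intro l hl j h1 h2
  have h3 := hk l hl
  rw [Nat.le_zero, Finset.sum_eq_zero_iff] at h3
  exact h3 j (Finset.mem_Ico.mpr ⟨h1, h2⟩)

/-- splitting a context -/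
theorem rep_split {k : ℕ} {bB : ℕ → ℕ} (hB : PB γ y S s w k bB) (q : ℕ)
    {Cf : ℕ → Frame K w n} {a z b : ℕ} (haz : a ≤ z) (hzb : z ≤ b)
    (hgood : ∀ i j, a ≤ i → i ≤ j → j ≤ b → GoodSeg γ y S s Cf i j)
    (hHG : ∀ j, a ≤ j → j < b → HG γ y S s (Cf j).2)
    {A : Finset ℕ} (hA : bB (bB q) ≤ A.card) (hinj : ∀ i ∈ A, ∀ j ∈ A, s i = s j → i = j)
    (hk : ∀ l ∈ A, ∑ j ∈ Finset.Ico a b, (Cf j).2.cnt (s l) ≤ k + 1)
    (h1 : ∀ l ∈ A, ∃ j, a ≤ j ∧ j < z ∧ 0 < (Cf j).2.cnt (s l))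
    (h2 : ∀ l ∈ A, ∃ j, z ≤ j ∧ j < b ∧ 0 < (Cf j).2.cnt (s l)) :
    ∃ B ⊆ A, q ≤ B.card ∧
      Rep w n γ y S s B (2 ^ (k + 1)) (fun σ => seg (fun j => fmat (Cf j) (pt γ y S s σ)) a b) := by
  have hsum : ∀ l, ∑ j ∈ Finset.Ico a z, (Cf j).2.cnt (s l) +
      ∑ j ∈ Finset.Ico z b, (Cf j).2.cnt (s l) = ∑ j ∈ Finset.Ico a b, (Cf j).2.cnt (s l) :=
    fun l => Finset.sum_Ico_consecutive _ haz hzb
  have hpos1 : ∀ l ∈ A, 0 < ∑ j ∈ Finset.Ico a z, (Cf j).2.cnt (s l) := by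
    intro l hl
    obtain ⟨j, h3, h4, h5⟩ := h1 l hl
    exact Finset.sum_pos' (fun _ _ => Nat.zero_le _) ⟨j, Finset.mem_Ico.mpr ⟨h3, h4⟩, h5⟩
  have hpos2 : ∀ l ∈ A, 0 < ∑ j ∈ Finset.Ico z b, (Cf j).2.cnt (s l) := by
    intro l hl
    obtain ⟨j, h3, h4, h5⟩ := h2 l hl
    exact Finset.sum_pos' (fun _ _ => Nat.zero_le _) ⟨j, Finset.mem_Ico.mpr ⟨h3, h4⟩, h5⟩
  obtain ⟨B1, hB1, hB1c, hR1⟩ := hB (bB q) Cf a z A haz
    (fun i j hi hij hj => hgood i j hi hij (hj.trans hzb))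
    (fun j hj1 hj2 => hHG j hj1 (lt_of_lt_of_le hj2 hzb)) hA hinj (by
      intro l hl
      have e1 := hsum l
      have e2 := hpos2 l hl
      have e3 := hk l hl
      omega)
  obtain ⟨B2, hB2, hB2c, hR2⟩ := hB q Cf z b B1 hzb
    (fun i j hi hij hj => hgood i j (haz.trans hi) hij hj)
    (fun j hj1 hj2 => hHG j (haz.trans hj1) hj2) hB1c
    (fun i hi j hj => hinj i (hB1 hi) j (hB1 hj)) (by
      intro l hl
      have e1 := hsum l
      have e2 := hpos1 l (hB1 hl)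
      have e3 := hk l (hB1 hl)
      omega)
  refine ⟨B2, hB2.trans hB1, hB2c, ?_⟩
  have h3 := (hR1.mono hB2 le_rfl).mul hR2
  have h4 : 2 ^ (k + 1) = 2 ^ k + 2 ^ k := by ring
  rw [h4]
  refine h3.congr fun σ _ => ?_
  exact (seg_mul _ haz hzb).symm

/-- contexts inside a hereditarily good tree are good -/
theorem goodSeg_of_HG [Inhabited (Frame K w n)] {T T' : Prog K w n} (hT : HG γ y S s T)
    {C : List (Frame K w n)} (hC : Path T C T') :
    ∀ i j, 0 ≤ i → i ≤ j → j ≤ C.length → GoodSeg γ y S s (wd C) i j := by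
  intro i j _ hij hj σ σ'
  have h1 : Inside T ((C.drop i).take (j - i)) := by
    have e1 : C = C.take i ++ ((C.drop i).take (j - i) ++ (C.drop i).drop (j - i)) := by
      rw [List.take_append_drop, List.take_append_drop]
    rw [e1] at hC
    obtain ⟨v, h1, h2⟩ := Path.split _ hC
    obtain ⟨u, h3, h4⟩ := Path.split _ h2
    exact ⟨_, v, u, h1, h3⟩
  have := hT _ h1 σ σ'
  rwa [cmat_eq_seg C _ i j hij hj, cmat_eq_seg C _ i j hij hj] at this

theorem HG.sub {T T' : Prog K w n} (hT : HG γ y S s T) {C : List (Frame K w n)}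
    (hC : Path T C T') : HG γ y S s T' := fun _ hC' => hT _ (hC'.of_path hC)

theorem HG.sibling [Inhabited (Frame K w n)] {T T' : Prog K w n} (hT : HG γ y S s T)
    {C : List (Frame K w n)} (hC : Path T C T') (j : ℕ) (hj : j < C.length) :
    HG γ y S s (wd C j).2 := by
  have e1 : C = C.take j ++ (C[j] :: C.drop (j + 1)) := by
    rw [← List.drop_eq_getElem_cons hj, List.take_append_drop]
  have e2 : wd C j = C[j] := by
    unfold wd
    rw [List.getD_eq_getElem?_getD, List.getElem?_eq_getElem hj]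
    rfl
  rw [e2]
  rw [e1] at hC
  obtain ⟨v, h1, h2⟩ := Path.split _ hC
  obtain ⟨f', hf'⟩ := h2.sibling
  exact (hT.sub h1).sub hf'


/-- first and last occurrences in an interval of frames -/
theorem exists_first_last (Cf : ℕ → Frame K w n) (a b : ℕ) (i : Fin n)
    (h : ∃ j, a ≤ j ∧ j < b ∧ 0 < (Cf j).2.cnt i) :
    ∃ f g, a ≤ f ∧ g < b ∧ f ≤ g ∧ 0 < (Cf f).2.cnt i ∧ 0 < (Cf g).2.cnt i ∧
      ∀ j, a ≤ j → j < b → 0 < (Cf j).2.cnt i → f ≤ j ∧ j ≤ g := by
  classical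
  obtain ⟨j, h1, h2, h3⟩ := h
  set O := (Finset.Ico a b).filter (fun j => 0 < (Cf j).2.cnt i) with hO
  have hne : O.Nonempty := ⟨j, by rw [hO, Finset.mem_filter, Finset.mem_Ico]; exact ⟨⟨h1, h2⟩, h3⟩⟩
  have hm := Finset.mem_filter.mp (O.min'_mem hne)
  have hM := Finset.mem_filter.mp (O.max'_mem hne)
  refine ⟨O.min' hne, O.max' hne, (Finset.mem_Ico.mp hm.1).1, (Finset.mem_Ico.mp hM.1).2,
    O.min'_le _ (O.max'_mem hne), hm.2, hM.2, ?_⟩
  intro j' h1' h2' h3'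
  have : j' ∈ O := by rw [hO, Finset.mem_filter, Finset.mem_Ico]; exact ⟨⟨h1', h2'⟩, h3'⟩
  exact ⟨O.min'_le _ this, O.le_max' _ this⟩

/-- chain or common point -/
theorem chain_or_point (f g : ℕ → ℕ) (q M : ℕ) (A : Finset ℕ) (hA : q * (q * M) ≤ A.card)
    (hfg : ∀ l ∈ A, f l ≤ g l) :
    (∃ B ⊆ A, q ≤ B.card ∧ ((∀ i ∈ B, ∀ j ∈ B, i < j → g i < f j) ∨
      (∀ i ∈ B, ∀ j ∈ B, i < j → g j < f i))) ∨
    (∃ B ⊆ A, M ≤ B.card ∧ (B = ∅ ∨ ∃ l0 ∈ B, ∀ l ∈ B, f l ≤ f l0 ∧ f l0 ≤ g l)) := by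
  classical
  rcases ramsey2 (fun i j => g i < f j) _ q A hA (by
      intro i _ j hj l _ _ _ h1 h2
      have := hfg j hj
      omega) with
      ⟨B, hB, hBc, hBR⟩ | ⟨B, hB, hBc, hBR⟩
  · exact Or.inl ⟨B, hB, hBc, Or.inl hBR⟩
  rcases ramsey2 (fun i j => g j < f i) _ q B hBc (by
      intro i _ j hj l _ _ _ h1 h2
      have := hfg j (hB hj)
      omega) with
      ⟨B', hB', hBc', hBR'⟩ | ⟨B', hB', hBc', hBR'⟩
  · exact Or.inl ⟨B', hB'.trans hB, hBc', Or.inr hBR'⟩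
  right
  refine ⟨B', hB'.trans hB, hBc', ?_⟩
  rcases B'.eq_empty_or_nonempty with h0 | hne
  · exact Or.inl h0
  right
  obtain ⟨l0, hl0, hmax⟩ := Finset.exists_max_image B' f hne
  refine ⟨l0, hl0, fun l hl => ⟨hmax l hl, ?_⟩⟩
  rcases lt_trichotomy l l0 with h | h | h
  · have := hBR l (hB' hl) l0 (hB' hl0) h
    omega
  · rw [h]; exact hfg l0 (hB (hB' hl0))
  · have := hBR' l0 hl0 l hl h
    omega

theorem PA_succ [Inhabited (Frame K w n)] {k : ℕ} {bA bB : ℕ → ℕ} (hA : PA γ y S s w k bA)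
    (hB_ : PB γ y S s w k bB) :
    PA γ y S s w (k + 1)
      (fun q => q + mh (bA (bA q)) (1 + q * (q * (bB (bB q) + 1)))) := by
  classical
  intro q T A hT hAc hinj hk
  -- letters that do not occur
  set A0 := A.filter (fun l => T.cnt (s l) = 0) with hA0
  set A1 := A.filter (fun l => ¬ T.cnt (s l) = 0) with hA1
  have hcard : A0.card + A1.card = A.card := by
    rw [hA0, hA1, Finset.card_filter_add_card_filter_not]
  by_cases h0 : q ≤ A0.card
  · refine ⟨A0, Finset.filter_subset _ _, h0, (Rep.const _ ?_).mono subset_rfl (Nat.zero_le _)⟩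
    intro σ hσ
    rw [val_const (fun l hl => (Finset.mem_filter.mp hl).2) hσ]
  have hA1A : A1 ⊆ A := Finset.filter_subset _ _
  have hA1c : mh (bA (bA q)) (1 + q * (q * (bB (bB q) + 1))) ≤ A1.card := by
    simp only at hAc
    omega
  have hpow : 2 ^ (k + 1) = 2 ^ k + 2 ^ k := by ring
  rcases comb (s := s) (bA (bA q)) T (1 + q * (q * (bB (bB q) + 1))) A1 hA1c
    (fun i hi j hj => hinj i (hA1A hi) j (hA1A hj))
    (fun l hl => Nat.pos_of_ne_zero (Finset.mem_filter.mp hl).2) with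
    ⟨C, Bn, l, r, hp, A', hA', hc, hh⟩ | ⟨C, i, F, hp, A', hA', hc, f, hf, hfinj⟩
  · -- many letters in both children of a node
    have hpl : Path (Prog.node Bn l r) [(Bn, r)] l := Path.left r (Path.nil _)
    have hpr : Path (Prog.node Bn l r) [((fun a b c => Bn a c b), l)] r :=
      Path.right l (Path.nil _)
    have hcnt : ∀ a ∈ A', l.cnt (s a) ≤ k ∧ r.cnt (s a) ≤ k := by
      intro a ha
      obtain ⟨h1, h2, h3⟩ := hh a ha
      have h4 := hk a (hA1A (hA' ha))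
      rw [hp.cnt] at h4
      simp only [Prog.cnt] at h4
      omega
    obtain ⟨B1, hB1, hB1c, hR1⟩ := hA (bA q) l A' (hT.sub (hp.trans hpl)) hc
      (fun i hi j hj => hinj i (hA1A (hA' hi)) j (hA1A (hA' hj))) (fun a ha => (hcnt a ha).1)
    obtain ⟨B2, hB2, hB2c, hR2⟩ := hA q r B1 (hT.sub (hp.trans hpr)) hB1c
      (fun i hi j hj => hinj i (hA1A (hA' (hB1 hi))) j (hA1A (hA' (hB1 hj))))
      (fun a ha => (hcnt a (hB1 ha)).2)
    refine ⟨B2, hB2.trans (hB1.trans (hA'.trans hA1A)), hB2c, ?_⟩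
    have h1 : Rep w n γ y S s B2 0 (fun σ => cmat C (pt γ y S s σ)) :=
      Rep.const _ fun σ hσ => cmat_const (fun a ha => (hh a (hB1 (hB2 ha))).1) hσ
    have h2 := (h1.mul (hR2.linear (flin (Bn, r)))).mul (hR1.mono hB2 le_rfl)
    rw [hpow]
    refine (h2.mono subset_rfl (by omega)).congr fun σ _ => ?_
    have e1 := hp.val (pt γ y S s σ)
    have e2 := hpl.val (pt γ y S s σ)
    rw [cmat_cons, cmat_nil, mul_one] at e2
    rw [e1, e2, col_mulVec, col_mulVec, ← flin_col, Matrix.mul_assoc]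
  · -- a long comb
    have hvalC : ∀ σ, T.val (pt γ y S s σ) =
        seg (fun j => fmat (wd C j) (pt γ y S s σ)) 0 C.length *ᵥ
          (Prog.leaf i F).val (pt γ y S s σ) := by
      intro σ
      rw [hp.val, cmat_eq_seg']
    -- remove the letter of the last leaf
    set A2 := A'.filter (fun a => ¬ s a = i) with hA2
    have hA2c : q * (q * (bB (bB q) + 1)) ≤ A2.card := by
      have h1 : (A'.filter (fun a => s a = i)).card ≤ 1 := by
        rw [Finset.card_le_one]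
        intro a ha b hb
        rw [Finset.mem_filter] at ha hb
        exact hinj a (hA1A (hA' ha.1)) b (hA1A (hA' hb.1)) (ha.2.trans hb.2.symm)
      have h2 := Finset.card_filter_add_card_filter_not (s := A') (fun a => s a = i)
      rw [← hA2] at h2
      omega
    have hA2A' : A2 ⊆ A' := Finset.filter_subset _ _
    have hA2A : A2 ⊆ A := hA2A'.trans (hA'.trans hA1A)
    have hleaf : ∀ a ∈ A2, (Prog.leaf i F : Prog K w n).cnt (s a) = 0 := by
      intro a ha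
      have := (Finset.mem_filter.mp ha).2
      simp only [Prog.cnt]
      rw [if_neg (fun h => this h.symm)]
    have hfl : ∀ a ∈ A2, ∃ g, g < C.length ∧ f a ≤ g ∧ 0 < (wd C g).2.cnt (s a) ∧
        ∀ j, 0 ≤ j → j < C.length → 0 < (wd C j).2.cnt (s a) → f a ≤ j ∧ j ≤ g := by
      intro a ha
      obtain ⟨h1, h2, h3⟩ := hf a (hA2A' ha)
      obtain ⟨f', g, h4, h5, h6, h7, h8, h9⟩ := exists_first_last (wd C) 0 C.length (s a)
        ⟨f a, Nat.zero_le _, h1, h3⟩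
      have h10 : ∀ j, j < C.length → 0 < (wd C j).2.cnt (s a) → f a ≤ j := by
        intro j hj hj'
        by_contra hlt
        have := h2 j (by omega)
        omega
      exact ⟨g, h5, h10 g h5 h8, h8, fun j hj0 hj hj' => ⟨h10 j hj hj', (h9 j hj0 hj hj').2⟩⟩
    choose! g hg1 hg2 hg3 hg4 using hfl
    have hgood := goodSeg_of_HG hT hp
    have hfinish : ∀ (B : Finset ℕ) (t : ℕ), B ⊆ A2 → Rep w n γ y S s B t
        (fun σ => seg (fun j => fmat (wd C j) (pt γ y S s σ)) 0 C.length) →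
        Rep w n γ y S s B t (fun σ => col (T.val (pt γ y S s σ))) := by
      intro B t hB hR
      have h1 : Rep w n γ y S s B 0
          (fun σ => col ((Prog.leaf i F : Prog K w n).val (pt γ y S s σ))) :=
        Rep.const _ fun σ hσ => by rw [val_const (fun a ha => hleaf a (hB ha)) hσ]
      refine ((hR.mul h1).mono subset_rfl (by omega)).congr fun σ _ => ?_
      rw [hvalC, col_mulVec]
    have hsum : ∀ l ∈ A2, ∑ j ∈ Finset.Ico 0 C.length, (wd C j).2.cnt (s l) ≤ k + 1 := by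
      intro l hl
      have h1 := hk l (hA2A hl)
      rw [hp.cnt, ccnt_eq_sum] at h1
      omega
    rcases chain_or_point f g q (bB (bB q) + 1) A2 hA2c (fun l hl => hg2 l hl) with
      ⟨B, hB, hBc, hBR⟩ | ⟨B, hB, hBc, hBR⟩
    · refine ⟨B, hB.trans hA2A, hBc, hfinish B _ hB ?_⟩
      exact (rep_chain (Nat.zero_le _) hgood f g (fun l _ => Nat.zero_le _)
        (fun l hl => hg1 l (hB hl)) (fun l hl => hg2 l (hB hl)) (fun l hl => hg4 l (hB hl))
        hBR).mono subset_rfl Nat.one_le_two_pow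
    · rcases hBR with h0 | ⟨l0, hl0, hmax⟩
      · subst h0
        simp at hBc
      set D := B.erase l0 with hD
      have hDA2 : D ⊆ A2 := (Finset.erase_subset _ _).trans hB
      have hDc : bB (bB q) ≤ D.card := by
        rw [hD, Finset.card_erase_of_mem hl0]; omega
      have hD1 : ∀ l ∈ D, f l < f l0 := by
        intro l hl
        rw [hD, Finset.mem_erase] at hl
        refine lt_of_le_of_ne (hmax l hl.2).1 fun heq => hl.1 ?_
        exact hfinj l (hA2A' (hB hl.2)) l0 (hA2A' (hB hl0)) heq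
      obtain ⟨B', hB', hBc', hR'⟩ := rep_split hB_ q (a := 0) (z := f l0) (b := C.length)
        (Nat.zero_le _) (hf l0 (hA2A' (hB hl0))).1.le hgood
        (fun j _ hj => hT.sibling hp j hj) hDc
        (fun i hi j hj => hinj i (hA2A (hDA2 hi)) j (hA2A (hDA2 hj)))
        (fun l hl => hsum l (hDA2 hl))
        (fun l hl => ⟨f l, Nat.zero_le _, hD1 l hl, (hf l (hA2A' (hDA2 hl))).2.2⟩)
        (fun l hl => ⟨g l, (hmax l (Finset.mem_of_mem_erase hl)).2, hg1 l (hDA2 hl),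
          hg3 l (hDA2 hl)⟩)
      exact ⟨B', hB'.trans (hDA2.trans hA2A), hBc', hfinish B' _ (hB'.trans hDA2) hR'⟩

theorem PB_succ [Inhabited (Frame K w n)] {k : ℕ} {bA' bB : ℕ → ℕ}
    (hA' : PA γ y S s w (k + 1) bA') (hB_ : PB γ y S s w k bB) :
    PB γ y S s w (k + 1) (fun q => q + q * (q * (2 * bB (bB q) + bA' q + 1))) := by
  classical
  intro q Cf a b A hab hgood hHG hAc hinj hk
  set A0 := A.filter (fun l => ∀ j, a ≤ j → j < b → (Cf j).2.cnt (s l) = 0) with hA0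
  set A1 := A.filter (fun l => ¬ ∀ j, a ≤ j → j < b → (Cf j).2.cnt (s l) = 0) with hA1
  have hcard : A0.card + A1.card = A.card := by
    rw [hA0, hA1, Finset.card_filter_add_card_filter_not]
  by_cases h0 : q ≤ A0.card
  · refine ⟨A0, Finset.filter_subset _ _, h0, (Rep.const _ ?_).mono subset_rfl (Nat.zero_le _)⟩
    intro σ hσ
    exact seg_const (fun l hl => (Finset.mem_filter.mp hl).2) hσ
  have hA1A : A1 ⊆ A := Finset.filter_subset _ _
  have hA1c : q * (q * (2 * bB (bB q) + bA' q + 1)) ≤ A1.card := by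
    simp only at hAc
    omega
  have hfl : ∀ l ∈ A1, ∃ f g, a ≤ f ∧ g < b ∧ f ≤ g ∧ 0 < (Cf f).2.cnt (s l) ∧
      0 < (Cf g).2.cnt (s l) ∧
      ∀ j, a ≤ j → j < b → 0 < (Cf j).2.cnt (s l) → f ≤ j ∧ j ≤ g := by
    intro l hl
    rw [hA1, Finset.mem_filter] at hl
    obtain ⟨_, hl⟩ := hl
    push Not at hl
    obtain ⟨j, h1, h2, h3⟩ := hl
    exact exists_first_last Cf a b (s l) ⟨j, h1, h2, Nat.pos_of_ne_zero h3⟩
  choose! f g hf1 hg1 hfg hf2 hg2 hocc using hfl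
  rcases chain_or_point f g q (2 * bB (bB q) + bA' q + 1) A1 hA1c (fun l hl => hfg l hl) with
      ⟨B, hB, hBc, hBR⟩ | ⟨B, hB, hBc, hBR⟩
  · refine ⟨B, hB.trans hA1A, hBc, ?_⟩
    exact (rep_chain hab hgood f g (fun l hl => hf1 l (hB hl))
      (fun l hl => hg1 l (hB hl)) (fun l hl => hfg l (hB hl)) (fun l hl => hocc l (hB hl))
      hBR).mono subset_rfl Nat.one_le_two_pow
  rcases hBR with h0 | ⟨l0, hl0, hmax⟩
  · subst h0
    simp at hBc
  set z := f l0 with hz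
  have hz1 : a ≤ z := hf1 l0 (hB hl0)
  have hz2 : z < b := lt_of_le_of_lt (hfg l0 (hB hl0)) (hg1 l0 (hB hl0))
  have hBA : B ⊆ A := hB.trans hA1A
  set C1 := B.filter (fun l => f l < z) with hC1
  set C2 := B.filter (fun l => f l = z ∧ z < g l) with hC2
  set C3 := B.filter (fun l => f l = z ∧ g l = z) with hC3
  have hcard3 : B.card ≤ C1.card + (C2.card + C3.card) := by
    have : B ⊆ C1 ∪ (C2 ∪ C3) := by
      intro l hl
      rw [Finset.mem_union, Finset.mem_union, hC1, hC2, hC3, Finset.mem_filter,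
        Finset.mem_filter, Finset.mem_filter]
      have h1 := hmax l hl
      by_cases h2 : f l < z
      · exact Or.inl ⟨hl, h2⟩
      · have h3 : f l = z := by omega
        by_cases h4 : z < g l
        · exact Or.inr (Or.inl ⟨hl, h3, h4⟩)
        · exact Or.inr (Or.inr ⟨hl, h3, by omega⟩)
    refine (Finset.card_le_card this).trans ((Finset.card_union_le _ _).trans ?_)
    exact Nat.add_le_add_left (Finset.card_union_le _ _) _
  by_cases hc1 : bB (bB q) ≤ C1.card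
  · have hC1B : C1 ⊆ B := Finset.filter_subset _ _
    obtain ⟨B', hB', hBc', hR'⟩ := rep_split hB_ q (a := a) (z := z) (b := b)
        hz1 hz2.le hgood hHG hc1
        (fun i hi j hj => hinj i (hBA (hC1B hi)) j (hBA (hC1B hj)))
        (fun l hl => hk l (hBA (hC1B hl)))
        (fun l hl => ⟨f l, hf1 l (hB (hC1B hl)), (Finset.mem_filter.mp hl).2,
          hf2 l (hB (hC1B hl))⟩)
        (fun l hl => ⟨g l, (hmax l (hC1B hl)).2, hg1 l (hB (hC1B hl)), hg2 l (hB (hC1B hl))⟩)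
    exact ⟨B', hB'.trans (hC1B.trans hBA), hBc', hR'⟩
  by_cases hc2 : bB (bB q) ≤ C2.card
  · have hC2B : C2 ⊆ B := Finset.filter_subset _ _
    obtain ⟨B', hB', hBc', hR'⟩ := rep_split hB_ q (a := a) (z := z + 1) (b := b)
        (by omega) hz2 hgood hHG hc2
        (fun i hi j hj => hinj i (hBA (hC2B hi)) j (hBA (hC2B hj)))
        (fun l hl => hk l (hBA (hC2B hl)))
        (fun l hl => ⟨f l, hf1 l (hB (hC2B hl)), by
          have := (Finset.mem_filter.mp hl).2.1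
          omega, hf2 l (hB (hC2B hl))⟩)
        (fun l hl => ⟨g l, (Finset.mem_filter.mp hl).2.2, hg1 l (hB (hC2B hl)),
          hg2 l (hB (hC2B hl))⟩)
    exact ⟨B', hB'.trans (hC2B.trans hBA), hBc', hR'⟩
  have hc3 : bA' q ≤ C3.card := by omega
  have hC3B : C3 ⊆ B := Finset.filter_subset _ _
  have hzero : ∀ l ∈ C3, ∀ j, a ≤ j → j < b → j ≠ z → (Cf j).2.cnt (s l) = 0 := by
    intro l hl j h1 h2 h3
    by_contra h4
    have h5 := hocc l (hB (hC3B hl)) j h1 h2 (Nat.pos_of_ne_zero h4)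
    have h6 := (Finset.mem_filter.mp hl).2
    omega
  obtain ⟨B', hB', hBc', hR'⟩ := hA' q (Cf z).2 C3 (hHG z hz1 hz2) hc3
    (fun i hi j hj => hinj i (hBA (hC3B hi)) j (hBA (hC3B hj))) (by
      intro l hl
      refine le_trans ?_ (hk l (hBA (hC3B hl)))
      exact Finset.single_le_sum (f := fun j => (Cf j).2.cnt (s l)) (fun _ _ => Nat.zero_le _)
        (Finset.mem_Ico.mpr ⟨hz1, hz2⟩))
  refine ⟨B', hB'.trans (hC3B.trans hBA), hBc', ?_⟩
  have h1 : Rep w n γ y S s B' 0 (fun σ => seg (fun j => fmat (Cf j) (pt γ y S s σ)) a z) :=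
    Rep.const _ fun σ hσ => seg_const (fun l hl j h1 h2 =>
      hzero l (hB' hl) j h1 (by omega) (by omega)) hσ
  have h2 : Rep w n γ y S s B' 0 (fun σ => seg (fun j => fmat (Cf j) (pt γ y S s σ)) (z + 1) b) :=
    Rep.const _ fun σ hσ => seg_const (fun l hl j h1 h2 =>
      hzero l (hB' hl) j (by omega) h2 (by omega)) hσ
  have h3 := (h1.mul (hR'.linear (flin (Cf z)))).mul h2
  refine (h3.mono subset_rfl (by omega)).congr fun σ _ => ?_
  rw [flin_col, ← seg_succ (fun j => fmat (Cf j) (pt γ y S s σ)) hz1, seg_mul _ (by omega) hz2]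

/-- the bounds -/
def bnd : ℕ → (ℕ → ℕ) × (ℕ → ℕ)
  | 0 => (fun q => q, fun q => q)
  | k + 1 =>
    (fun q => q + mh ((bnd k).1 ((bnd k).1 q)) (1 + q * (q * ((bnd k).2 ((bnd k).2 q) + 1))),
      fun q => q + q * (q * (2 * (bnd k).2 ((bnd k).2 q) + (q + mh ((bnd k).1 ((bnd k).1 q))
        (1 + q * (q * ((bnd k).2 ((bnd k).2 q) + 1)))) + 1)))

/-- **Representation lemma.** -/
theorem rep_lemma [Inhabited (Frame K w n)] (γ y : Fin n → K) (S : Finset (Fin n))
    (s : ℕ → Fin n) : ∀ k, PA γ y S s w k (bnd k).1 ∧ PB γ y S s w k (bnd k).2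
  | 0 => ⟨PA_zero, PB_zero⟩
  | k + 1 => by
    obtain ⟨h1, h2⟩ := rep_lemma γ y S s k
    have h3 := PA_succ h1 h2
    exact ⟨h3, PB_succ h3 h2⟩

end Pool.Agent.Helper8.Tree
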