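import Pool.Agent.Helper5.Homog
import Pool.Agent.Helper8.Tree.RepLemma

/-!
A function represented by few passes cannot be critical for many letters.
-/

namespace Pool.Agent.Helper8.Tree

open Module Matrix Pool.Agent.Helper5 Pool.Agent.Helper8

variable {K : Type*} [Field K] {w n : ℕ}

section Abs

/-- product between two cuts of a pass -/
def QQ (dir : Bool) (x : ℕ → ℕ) (N : ℕ → Matrix (Fin w) (Fin w) K) (i j : ℕ) :
    Matrix (Fin w) (Fin w) K :=
  if dir = true then seg N (x i) (x j) else (seg N (x j) (x i))ᵀ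

/-- monotone or antitone according to the direction -/
def Dir (dir : Bool) (x : ℕ → ℕ) : Prop := (dir = true → Monotone x) ∧ (dir = false → Antitone x)

theorem QQ_self (dir : Bool) (x : ℕ → ℕ) (N : ℕ → Matrix (Fin w) (Fin w) K) (i : ℕ) :
    QQ dir x N i i = 1 := by
  unfold QQ
  split_ifs
  · exact seg_self _ _
  · rw [seg_self, Matrix.transpose_one]

theorem QQ_mul {dir : Bool} {x : ℕ → ℕ} (hx : Dir dir x) (N : ℕ → Matrix (Fin w) (Fin w) K)
    {i j l : ℕ} (h1 : i ≤ j) (h2 : j ≤ l) :
    QQ dir x N i j * QQ dir x N j l = QQ dir x N i l := by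
  unfold QQ
  cases dir with
  | true =>
    simp only [if_true]
    exact seg_mul N (hx.1 rfl h1) (hx.1 rfl h2)
  | false =>
    simp only [Bool.false_eq_true, if_false]
    rw [← Matrix.transpose_mul]
    congr 1
    exact seg_mul N (hx.2 rfl h2) (hx.2 rfl h1)

theorem seg_QQ {dir : Bool} {x : ℕ → ℕ} (hx : Dir dir x) (N : ℕ → Matrix (Fin w) (Fin w) K)
    {i j : ℕ} (h : i ≤ j) :
    seg (fun l => QQ dir x N l (l + 1)) i j = QQ dir x N i j := by
  induction j, h using Nat.le_induction with
  | base => rw [seg_self, QQ_self]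
  | succ j h ih => rw [seg_succ _ h, ih, QQ_mul hx N h (Nat.le_succ j)]

/-- transpose for decreasing passes -/
def tw (dir : Bool) (A : Matrix (Fin w) (Fin w) K) : Matrix (Fin w) (Fin w) K :=
  if dir = true then A else Aᵀ

/-- lower end -/
def plo (dir : Bool) (x : ℕ → ℕ) (q : ℕ) : ℕ := if dir = true then x 0 else x q
/-- upper end -/
def phi (dir : Bool) (x : ℕ → ℕ) (q : ℕ) : ℕ := if dir = true then x q else x 0

theorem seg_apply (f : ℕ → (ℕ → Matrix (Fin w) (Fin w) K)) (i j c : ℕ) :
    (seg f i j) c = seg (fun l => f l c) i j := by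
  unfold seg
  have := map_list_prod (Pi.evalMonoidHom (fun _ : ℕ => Matrix (Fin w) (Fin w) K) c)
    ((List.Ico i j).map f)
  rw [Pi.evalMonoidHom_apply, List.map_map] at this
  exact this

theorem seg_ones {MM : Type*} [Monoid MM] (i j : ℕ) : seg (fun _ => (1 : MM)) i j = 1 := by
  unfold seg
  simp

/-- **Abstract bound.** -/
theorem rep_bound_abs (t W q R D : ℕ) (N : ℕ → (ℕ → Prop) → ℕ → Matrix (Fin w) (Fin w) K)
    (a b : ℕ → ℕ) (dir : ℕ → Bool) (x : ℕ → ℕ → ℕ)
    (hx : ∀ c < t, ∀ l, a c ≤ x c l ∧ x c l ≤ b c) (hdir : ∀ c < t, Dir (dir c) (x c))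
    (hblock : ∀ c < t, ∀ l < q, ∀ j, plo (dir c) (fun i => x c (l + i)) 1 ≤ j →
      j < phi (dir c) (fun i => x c (l + i)) 1 → ∀ σ σ' : ℕ → Prop, (σ l ↔ σ' l) →
      N c σ j = N c σ' j)
    (hout : ∀ c < t, ∀ j, a c ≤ j → j < b c →
      (j < plo (dir c) (x c) q ∨ phi (dir c) (x c) q ≤ j) → ∀ σ σ' : ℕ → Prop, N c σ j = N c σ' j)
    (hrank : ∀ c < t, ∀ i j, a c ≤ i → i ≤ j → j ≤ b c → ∀ σ σ' : ℕ → Prop,
      (seg (N c σ) i j).rank = (seg (N c σ') i j).rank)
    (G : (ℕ → Matrix (Fin w) (Fin w) K) → Matrix (Fin R) (Fin R) K) (hG : Pol t D G)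
    (F : (ℕ → Prop) → Matrix (Fin R) (Fin R) K)
    (hF : ∀ σ, F σ = G (fun c => if c < t then seg (N c σ) (a c) (b c) else 1))
    (hfull : (F fun _ => True).det ≠ 0)
    (hproper : ∀ σ : ℕ → Prop, (∃ l < q, ¬ σ l) → (F σ).det = 0)
    (hW : (t * (w * w) + 1) ^ (D * R) ≤ W) : q < (2 * W + 1) ^ (t * w + 1) := by
  classical
  by_contra hq
  push Not at hq
  set stop : ℕ → Prop := fun _ => True with hstop
  set sbot : ℕ → Prop := fun _ => False with hsbot
  -- blocks
  have hQblock : ∀ c < t, ∀ l < q, ∀ σ σ' : ℕ → Prop, (σ l ↔ σ' l) →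
      QQ (dir c) (x c) (N c σ) l (l + 1) = QQ (dir c) (x c) (N c σ') l (l + 1) := by
    intro c hc l hl σ σ' hσ
    have hb := hblock c hc l hl
    unfold QQ
    cases hd : dir c with
    | true =>
      simp only [if_true]
      apply seg_congr
      intro j h1 h2
      exact hb j (by simpa [plo, hd] using h1) (by simpa [phi, hd] using h2) σ σ' hσ
    | false =>
      simp only [Bool.false_eq_true, if_false]
      congr 1
      apply seg_congr
      intro j h1 h2
      exact hb j (by simpa [plo, hd] using h1) (by simpa [phi, hd] using h2) σ σ' hσ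
  set av : ℕ → (ℕ → Matrix (Fin w) (Fin w) K) := fun l c =>
    if c < t then QQ (dir c) (x c) (N c sbot) l (l + 1) else 1 with hav
  set bv : ℕ → (ℕ → Matrix (Fin w) (Fin w) K) := fun l c =>
    if c < t then QQ (dir c) (x c) (N c stop) l (l + 1) else 1 with hbv
  have hmix : ∀ σ : ℕ → Prop, ∀ i j, i ≤ j → j ≤ q → ∀ c < t,
      (seg (mix av bv σ) i j) c = QQ (dir c) (x c) (N c σ) i j := by
    intro σ i j hij hjq c hc
    rw [seg_apply, ← seg_QQ (hdir c hc) _ hij]
    apply seg_congr
    intro l _ hl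
    by_cases hσ : σ l
    · rw [mix_pos hσ]
      simp only [hbv, hc, if_true]
      exact hQblock c hc l (by omega) _ _ (by simp [hσ, hstop])
    · rw [mix_neg hσ]
      simp only [hav, hc, if_true]
      exact hQblock c hc l (by omega) _ _ (by simp [hσ, hsbot])
  have hmix' : ∀ σ : ℕ → Prop, ∀ i j, ∀ c, ¬ c < t → (seg (mix av bv σ) i j) c = 1 := by
    intro σ i j c hc
    rw [seg_apply, ← seg_ones i j]
    apply seg_congr
    intro l _ _
    by_cases hσ : σ l
    · rw [mix_pos hσ]; simp [hbv, hc]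
    · rw [mix_neg hσ]; simp [hav, hc]
  set Lc : ℕ → Matrix (Fin w) (Fin w) K := fun c => seg (N c sbot) (a c) (plo (dir c) (x c) q)
    with hLc
  set Rc : ℕ → Matrix (Fin w) (Fin w) K := fun c => seg (N c sbot) (phi (dir c) (x c) q) (b c)
    with hRc
  have hpass : ∀ c < t, ∀ σ : ℕ → Prop, seg (N c σ) (a c) (b c) =
      Lc c * tw (dir c) ((seg (mix av bv σ) 0 q) c) * Rc c := by
    intro c hc σ
    have h1 : a c ≤ plo (dir c) (x c) q := by
      unfold plo; split_ifs; exacts [(hx c hc _).1, (hx c hc _).1]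
    have h2 : phi (dir c) (x c) q ≤ b c := by
      unfold phi; split_ifs; exacts [(hx c hc _).2, (hx c hc _).2]
    have h3 : plo (dir c) (x c) q ≤ phi (dir c) (x c) q := by
      unfold plo phi
      cases hd : dir c with
      | true => simp only [if_true]; exact (hdir c hc).1 hd (Nat.zero_le _)
      | false =>
        simp only [Bool.false_eq_true, if_false]; exact (hdir c hc).2 hd (Nat.zero_le _)
    have e1 : Lc c = seg (N c σ) (a c) (plo (dir c) (x c) q) := by
      simp only [hLc]
      apply seg_congr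
      intro j h4 h5
      exact hout c hc j h4 (by omega) (Or.inl h5) _ _
    have e2 : Rc c = seg (N c σ) (phi (dir c) (x c) q) (b c) := by
      simp only [hRc]
      apply seg_congr
      intro j h4 h5
      exact hout c hc j (by omega) h5 (Or.inr h4) _ _
    have e3 : tw (dir c) ((seg (mix av bv σ) 0 q) c) =
        seg (N c σ) (plo (dir c) (x c) q) (phi (dir c) (x c) q) := by
      rw [hmix σ 0 q (Nat.zero_le _) le_rfl c hc]
      cases hd : dir c with
      | true => simp [tw, QQ, plo, phi]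
      | false => simp [tw, QQ, plo, phi]
    rw [e1, e2, e3, seg_mul _ h1 h3, seg_mul _ (h1.trans h3) h2]
  set Φ : (ℕ → Matrix (Fin w) (Fin w) K) → K := fun C =>
    (G (fun c => if c < t then Lc c * tw (dir c) (C c) * Rc c else 1)).det with hΦ
  have hΦσ : ∀ σ : ℕ → Prop, Φ (seg (mix av bv σ) 0 q) = (F σ).det := by
    intro σ
    simp only [hΦ]
    rw [hF σ]
    congr 2
    funext c
    by_cases hc : c < t
    · simp only [hc, if_true]
      exact (hpass c hc σ).symm
    · simp only [hc, if_false]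
  have hV : ∀ L, tr K L Φ ∈ ((Aff K w t) ^ (D * R) :
      Submodule K ((ℕ → Matrix (Fin w) (Fin w) K) → K)) := by
    intro L
    have h1 : Pol t D (fun C : (ℕ → Matrix (Fin w) (Fin w) K) =>
        G (fun c => if c < t then Lc c * tw (dir c) ((L * C) c) * Rc c else 1)) := by
      apply Pol.comp hG
      intro c hc
      simp only [hc, if_true]
      have h2 : Pol t 1 (fun C : (ℕ → Matrix (Fin w) (Fin w) K) => tw (dir c) ((L * C) c)) := by
        unfold tw
        split_ifs
        · exact Pol.coord hc L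
        · exact (Pol.coord hc L).transpose
      have := ((Pol.const t 0 (Lc c)).mul h2).mul (Pol.const t 0 (Rc c))
      simpa using this
    exact h1.det
  have hfr : finrank K ((Aff K w t) ^ (D * R) :
      Submodule K ((ℕ → Matrix (Fin w) (Fin w) K) → K)) ≤ W :=
    (finrank_Aff_pow t (D * R)).trans hW
  -- homogeneous cuts
  set rk : ℕ → ℕ → ℕ → ℕ := fun c i j => (QQ (dir c) (x c) (N c stop) i j).rank with hrk
  have hrkσ : ∀ c < t, ∀ i j, i ≤ j → ∀ σ, (QQ (dir c) (x c) (N c σ) i j).rank = rk c i j := by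
    intro c hc i j hij σ
    simp only [hrk]
    unfold QQ
    cases hd : dir c with
    | true =>
      simp only [if_true]
      exact hrank c hc _ _ (hx c hc _).1 ((hdir c hc).1 hd hij) (hx c hc _).2 _ _
    | false =>
      simp only [Bool.false_eq_true, if_false]
      rw [Matrix.rank_transpose, Matrix.rank_transpose]
      exact hrank c hc _ _ (hx c hc _).1 ((hdir c hc).2 hd hij) (hx c hc _).2 _ _
  have hrkanti : ∀ c < t, ∀ i i' j' j, i ≤ i' → i' ≤ j' → j' ≤ j → rk c i j ≤ rk c i' j' := by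
    intro c hc i i' j' j h1 h2 h3
    simp only [hrk]
    rw [← QQ_mul (hdir c hc) (N c stop) (h1.trans h2) h3, ← QQ_mul (hdir c hc) (N c stop) h1 h2]
    exact (Matrix.rank_mul_le_left _ _).trans (Matrix.rank_mul_le_right _ _)
  set r : ℕ → ℕ → ℕ := fun i j => ∑ c ∈ Finset.range t, rk c i j with hr
  have hranti : ∀ i i' j' j, i ≤ i' → i' ≤ j' → j' ≤ j → r i j ≤ r i' j' := by
    intro i i' j' j h1 h2 h3
    apply Finset.sum_le_sum
    intro c hc
    exact hrkanti c (Finset.mem_range.mp hc) _ _ _ _ h1 h2 h3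
  have hrB : ∀ i j, r i j ≤ t * w := by
    intro i j
    calc r i j ≤ ∑ c ∈ Finset.range t, w := Finset.sum_le_sum (fun c _ => Matrix.rank_le_width _)
      _ = t * w := by simp
  obtain ⟨p, hp0, hpM, hpmono, hpr⟩ := homog (2 * W + 1) (Nat.succ_pos _) r (t * w) hranti hrB
    (t * w) 0 q (by omega) (by simpa using hq)
  have hpm : ∀ i j, i ≤ j → j ≤ 2 * W + 1 → p i ≤ p j := by
    intro i j hij
    induction j, hij using Nat.le_induction with
    | base => intro _; exact le_rfl
    | succ j hij ih => intro hj; exact (ih (by omega)).trans (hpmono j (by omega)).le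
  have hpq : ∀ i, i ≤ 2 * W + 1 → p i ≤ q := fun i hi => (hpm i _ hi le_rfl).trans hpM
  have hbseg : ∀ i j, seg bv i j = seg (mix av bv stop) i j := by
    intro i j
    apply seg_congr
    intro l _ _
    rw [mix_pos trivial]
  refine chain Φ _ hV W hfr av bv q ?_ ?_ p hpmono hpM ?_
  · rw [hbseg, hΦσ]
    exact hfull
  · intro σ hσ
    rw [hΦσ]
    exact hproper σ hσ
  · intro i hi
    have hlt1 : p (2 * i) < p (2 * i + 1) := hpmono _ (by omega)
    have hlt2 : p (2 * i + 1) < p (2 * i + 2) := hpmono _ (by omega)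
    have hlt3 : p (2 * i + 2) < p (2 * i + 3) := hpmono _ (by omega)
    have hq1 : p (2 * i + 1) ≤ q := hpq _ (by omega)
    have hq3 : p (2 * i + 3) ≤ q := hpq _ (by omega)
    set σ : ℕ → Prop := fun l => ¬ (p (2 * i + 1) ≤ l ∧ l < p (2 * i + 2)) with hσ
    have es : seg bv (p (2 * i)) (p (2 * i + 1)) * seg av (p (2 * i + 1)) (p (2 * i + 2)) *
        seg bv (p (2 * i + 2)) (p (2 * i + 3)) = seg (mix av bv σ) (p (2 * i)) (p (2 * i + 3)) := by
      have e1 : seg bv (p (2 * i)) (p (2 * i + 1)) =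
          seg (mix av bv σ) (p (2 * i)) (p (2 * i + 1)) := by
        apply seg_congr
        intro l h1 h2
        rw [mix_pos (by simp only [hσ]; omega)]
      have e2 : seg av (p (2 * i + 1)) (p (2 * i + 2)) =
          seg (mix av bv σ) (p (2 * i + 1)) (p (2 * i + 2)) := by
        apply seg_congr
        intro l h1 h2
        rw [mix_neg (by simp only [hσ]; omega)]
      have e3 : seg bv (p (2 * i + 2)) (p (2 * i + 3)) =
          seg (mix av bv σ) (p (2 * i + 2)) (p (2 * i + 3)) := by
        apply seg_congr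
        intro l h1 h2
        rw [mix_pos (by simp only [hσ]; omega)]
      rw [e1, e2, e3, seg_mul _ hlt1.le hlt2.le, seg_mul _ (by omega) hlt3.le]
    rw [es]
    have hsum : r (p (2 * i)) (p (2 * i + 3)) = r (p (2 * i)) (p (2 * i + 1)) := by
      apply le_antisymm
      · exact hranti _ _ _ _ le_rfl hlt1.le (by omega)
      · rw [hpr (2 * i) (by omega)]
        exact hranti _ _ _ _ (hpm 0 (2 * i) (Nat.zero_le _) (by omega)) (by omega)
          (hpm (2 * i + 3) (2 * W + 1) (by omega) le_rfl)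
    have hcomp : ∀ c < t, rk c (p (2 * i)) (p (2 * i + 3)) = rk c (p (2 * i)) (p (2 * i + 1)) := by
      have h1 : ∀ c ∈ Finset.range t, rk c (p (2 * i)) (p (2 * i + 3)) ≤
          rk c (p (2 * i)) (p (2 * i + 1)) := by
        intro c hc
        exact hrkanti c (Finset.mem_range.mp hc) _ _ _ _ le_rfl hlt1.le (by omega)
      intro c hc
      exact (Finset.sum_eq_sum_iff_of_le h1).mp hsum c (Finset.mem_range.mpr hc)
    have hZ : ∀ c, ∃ Z : Matrix (Fin w) (Fin w) K,
        (seg (mix av bv σ) (p (2 * i)) (p (2 * i + 3))) c * Z =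
        (seg bv (p (2 * i)) (p (2 * i + 1))) c := by
      intro c
      rw [hbseg]
      by_cases hc : c < t
      · rw [hmix σ _ _ (by omega) hq3 c hc, hmix stop _ _ hlt1.le hq1 c hc]
        have e1 : QQ (dir c) (x c) (N c σ) (p (2 * i)) (p (2 * i + 3)) =
            QQ (dir c) (x c) (N c stop) (p (2 * i)) (p (2 * i + 1)) *
            QQ (dir c) (x c) (N c σ) (p (2 * i + 1)) (p (2 * i + 3)) := by
          rw [← QQ_mul (hdir c hc) _ hlt1.le (show p (2 * i + 1) ≤ p (2 * i + 3) by omega)]
          congr 1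
          rw [← hmix σ _ _ hlt1.le hq1 c hc, ← hmix stop _ _ hlt1.le hq1 c hc]
          refine congrFun ?_ c
          apply seg_congr
          intro l h1 h2
          rw [mix_pos (by simp only [hσ]; omega), mix_pos trivial]
        rw [e1]
        apply exists_right_of_rank_le
        rw [← e1, hrkσ c hc (p (2 * i)) (p (2 * i + 3)) (by omega) σ]
        exact (hcomp c hc).ge
      · rw [hmix' _ _ _ c hc, hmix' _ _ _ c hc]
        exact ⟨1, by simp⟩
    choose Z hZ using hZ
    exact ⟨Z, funext hZ⟩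

end Abs

section Concrete

variable {γ y : Fin n → K} {S : Finset (Fin n)} {s : ℕ → Fin n}

/-- pulling back a pattern on `[0,q)` along an enumeration of letters -/
def pull (e : ℕ → ℕ) (q : ℕ) (τ : ℕ → Prop) : ℕ → Prop := fun l' => ∀ l < q, e l = l' → τ l

theorem rep_bound {t W q R : ℕ} {B : Finset ℕ} (hB : q ≤ B.card)
    {F : (ℕ → Prop) → Matrix (Fin R) (Fin R) K} (hrep : Rep w n γ y S s B t F)
    (hfull : (F fun _ => True).det ≠ 0)
    (hproper : ∀ σ : ℕ → Prop, (∃ l ∈ B, ¬ σ l) → (F σ).det = 0)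
    (hW : (t * (w * w) + 1) ^ (t * R) ≤ W) : q < (2 * W + 1) ^ (t * w + 1) := by
  classical
  obtain ⟨t', ht', Cf, a, b, dir, x, hp, G, hG, hF⟩ := hrep
  obtain ⟨e, he, heB⟩ := exists_strictMono B q hB
  have hinj : Function.Injective e := he.injective
  have hpull : ∀ (τ : ℕ → Prop) (l : ℕ), l < q → (pull e q τ (e l) ↔ τ l) := by
    intro τ l hl
    constructor
    · intro h; exact h l hl rfl
    · intro h l' hl' hll; rw [hinj hll]; exact h
  have hsupp : ∀ (τ : ℕ → Prop) (l : ℕ), l ∉ B → pull e q τ l := by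
    intro τ l hl l' hl' hll
    exact absurd (hll ▸ heB l' hl') hl
  have hdir : ∀ c < t', Dir (dir c) (x c ∘ e) := by
    intro c hc
    obtain ⟨_, h1, h2, h3, _⟩ := hp c hc
    exact ⟨fun hd => (h2 hd).1.comp he.monotone, fun hd => (h3 hd).1.comp_monotone he.monotone⟩
  -- locality of the words
  have hloc : ∀ c < t', ∀ j, a c ≤ j → j < b c → ∀ σ σ' : ℕ → Prop,
      (∀ l < q, 0 < (Cf c j).2.cnt (s (e l)) → (σ l ↔ σ' l)) →
      fmat (Cf c j) (pt γ y S s (pull e q σ)) = fmat (Cf c j) (pt γ y S s (pull e q σ')) := by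
    intro c hc j h1 h2 σ σ' h
    apply fmat_congr
    intro i hi
    apply pt_congr
    intro l' hl'
    constructor
    · intro h3 l hl hll
      rw [← h l hl (by rw [hll, hl']; exact hi)]
      exact h3 l hl hll
    · intro h3 l hl hll
      rw [h l hl (by rw [hll, hl']; exact hi)]
      exact h3 l hl hll
  have key := rep_bound_abs t' W q R t'
    (fun c σ j => fmat (Cf c j) (pt γ y S s (pull e q σ))) a b dir (fun c => x c ∘ e)
    (fun c hc l => (hp c hc).2.1 _) hdir ?_ ?_ ?_ G hG (fun σ => F (pull e q σ)) ?_ ?_ ?_ ?_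
  · refine lt_of_lt_of_le key (Nat.pow_le_pow_right (Nat.succ_pos _) ?_)
    exact Nat.succ_le_succ (Nat.mul_le_mul_right _ ht')
  · intro c hc l hl j h1 h2 σ σ' hσ
    obtain ⟨_, hb, h3, h4, _⟩ := hp c hc
    have hlt : e l + 1 ≤ e (l + 1) := he (Nat.lt_succ_self l)
    cases hd : dir c with
    | true =>
      simp only [hd, plo, phi, if_true, Function.comp, Nat.add_zero] at h1 h2
      have hja : a c ≤ j := (hb _).1.trans h1
      have hjb : j < b c := lt_of_lt_of_le h2 (hb _).2
      apply hloc c hc j hja hjb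
      intro l' hl' hocc
      obtain ⟨h5, h6⟩ := (h3 hd).2 j hja hjb (e l') (heB l' hl') hocc
      have : l' = l := by
        rcases lt_trichotomy l' l with h7 | h7 | h7
        · have h8 : e l' + 1 ≤ e l := he h7
          have := (h3 hd).1 h8
          omega
        · exact h7
        · have h8 : e (l + 1) ≤ e l' := he.monotone h7
          have := (h3 hd).1 h8
          omega
      rw [this]; exact hσ
    | false =>
      simp only [hd, plo, phi, Bool.false_eq_true, if_false, Function.comp, Nat.add_zero] at h1 h2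
      have hja : a c ≤ j := (hb _).1.trans h1
      have hjb : j < b c := lt_of_lt_of_le h2 (hb _).2
      apply hloc c hc j hja hjb
      intro l' hl' hocc
      obtain ⟨h5, h6⟩ := (h4 hd).2 j hja hjb (e l') (heB l' hl') hocc
      have : l' = l := by
        rcases lt_trichotomy l' l with h7 | h7 | h7
        · have h8 : e l' + 1 ≤ e l := he h7
          have := (h4 hd).1 h8
          omega
        · exact h7
        · have h8 : e (l + 1) ≤ e l' := he.monotone h7
          have := (h4 hd).1 h8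
          omega
      rw [this]; exact hσ
  · intro c hc j h1 h2 h12 σ σ'
    obtain ⟨_, hb, h3, h4, _⟩ := hp c hc
    apply hloc c hc j h1 h2
    intro l hl hocc
    exfalso
    have hlt : e l + 1 ≤ e (l + 1) := he (Nat.lt_succ_self l)
    cases hd : dir c with
    | true =>
      simp only [hd, plo, phi, if_true, Function.comp] at h12
      obtain ⟨h5, h6⟩ := (h3 hd).2 j h1 h2 (e l) (heB l hl) hocc
      have h7 := (h3 hd).1 (he.monotone (Nat.zero_le l))
      have h8 := (h3 hd).1 (hlt.trans (he.monotone (show l + 1 ≤ q from hl)))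
      omega
    | false =>
      simp only [hd, plo, phi, Bool.false_eq_true, if_false, Function.comp] at h12
      obtain ⟨h5, h6⟩ := (h4 hd).2 j h1 h2 (e l) (heB l hl) hocc
      have h7 := (h4 hd).1 (he.monotone (Nat.zero_le l))
      have h8 := (h4 hd).1 (hlt.trans (he.monotone (show l + 1 ≤ q from hl)))
      omega
  · intro c hc i j h1 h2 h3 σ σ'
    exact (hp c hc).2.2.2.2 i j h1 h2 h3 _ _
  · intro σ
    rw [hF _ (hsupp σ)]
    rfl
  · have : pull e q (fun _ => True) = fun _ => True := by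
      funext l'
      simp [pull]
    simp only [this]
    exact hfull
  · intro σ hσ
    obtain ⟨l, hl, hσl⟩ := hσ
    exact hproper _ ⟨e l, heB l hl, fun h => hσl ((hpull σ l hl).mp h)⟩
  · refine le_trans ?_ hW
    calc (t' * (w * w) + 1) ^ (t' * R) ≤ (t * (w * w) + 1) ^ (t' * R) :=
          Nat.pow_le_pow_left (Nat.succ_le_succ (Nat.mul_le_mul_right _ ht')) _
      _ ≤ _ := Nat.pow_le_pow_right (Nat.succ_pos _) (Nat.mul_le_mul_right _ ht')

end Concrete

end Pool.Agent.Helper8.Tree
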