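import Pool.Agent.Helper8.Tree.Final

namespace Pool.Agent.Helper8.Tree.Single

open Pool.Agent.Helper8 ReadKTree

theorem result : ∀ w k : ℕ, ∃ C : ℕ, ∀ n d : ℕ,
    (points n (C * (Nat.clog 2 (k * n) + 1)) (k * n * d)).card ≤
        ((k * n * d + 1) * (n * (k * n * d) + 1)) ^ (C * (Nat.clog 2 (k * n) + 1)) ∧
      ∀ (p : Fin w → MvPolynomial (Fin n) ℚ) (r : Fin n → ℕ),
        Formula w n d p r → (∀ i, r i ≤ k) → ∀ a : Fin w, p a ≠ 0 →
          ∃ x ∈ points n (C * (Nat.clog 2 (k * n) + 1)) (k * n * d),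
            MvPolynomial.eval x (p a) ≠ 0 :=
  fun w k => ⟨Tree.expo (w + 1) k, fun n d => ⟨Tree.card_points _ _ _,
    fun _ _ h hr a ha => Tree.hit_formula w k n d h hr a ha⟩⟩

end Pool.Agent.Helper8.Tree.Single
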