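import Pool.Agent.Helper8.Tree.Crit

/-!
The heavy path: critical property of its intervals, and the level induction.
-/

namespace Pool.Agent.Helper8.Tree

open Module Matrix Pool.Agent.Helper8
open Pool.Agent.Helper5 hiding put put_mem put_not_mem put_self isPolyMap_put exists_generic
open Pool.Agent.Helper8.Loc (put put_mem put_not_mem put_self isPolyMap_put)

variable {K : Type*} [Field K] {w n : ℕ}

section SegL

variable [Inhabited (Frame K w n)]

/-- segment of a list of frames -/
def segL (C : List (Frame K w n)) (a b : ℕ) : List (Frame K w n) := (List.Ico a b).map (wd C)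

theorem P_eq_cmat (C : List (Frame K w n)) (g : Fin n → K) (a b : ℕ) :
    Loc.P (fun j => fpoly (wd C j)) g a b = cmat (segL C a b) g := by
  unfold Loc.P seg cmat segL
  rw [List.map_map]
  congr 1
  apply List.map_congr_left
  intro l _
  exact eval_fpoly _ g

theorem segL_self (C : List (Frame K w n)) (a : ℕ) : segL C a a = [] := by
  simp [segL]

theorem segL_append (C : List (Frame K w n)) {a b c : ℕ} (h1 : a ≤ b) (h2 : b ≤ c) :
    segL C a b ++ segL C b c = segL C a c := by
  unfold segL
  rw [← List.map_append, List.Ico.append_consecutive h1 h2]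

theorem segL_one (C : List (Frame K w n)) (a : ℕ) : segL C a (a + 1) = [wd C a] := by
  simp [segL]

theorem length_segL (C : List (Frame K w n)) (a b : ℕ) : (segL C a b).length = b - a := by
  simp [segL]

theorem wd_eq (C : List (Frame K w n)) {j : ℕ} (hj : j < C.length) : wd C j = C[j] := by
  unfold wd
  rw [List.getD_eq_getElem?_getD, List.getElem?_eq_getElem hj]
  rfl

theorem segL_full (C : List (Frame K w n)) : segL C 0 C.length = C := by
  apply List.ext_getElem
  · simp [length_segL]
  · intro i h1 h2
    simp only [segL, List.getElem_map, List.Ico.zero_bot, List.getElem_range]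
    exact wd_eq C h2

theorem segL_infix (C : List (Frame K w n)) {a b : ℕ} (hab : a ≤ b) (hb : b ≤ C.length) :
    segL C a b <:+: C := by
  refine ⟨segL C 0 a, segL C b C.length, ?_⟩
  rw [segL_append C (Nat.zero_le a) hab, segL_append C (Nat.zero_le b) hb, segL_full]

theorem infix_segL {C D : List (Frame K w n)} {a b : ℕ} (hab : a ≤ b) (h : D <:+: segL C a b) :
    ∃ a' b', a ≤ a' ∧ a' ≤ b' ∧ b' ≤ b ∧ D = segL C a' b' := by
  obtain ⟨A, B, hAB⟩ := h
  have hlen := congrArg List.length hAB
  rw [List.length_append, List.length_append, length_segL] at hlen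
  refine ⟨a + A.length, a + A.length + D.length, by omega, by omega, by omega, ?_⟩
  have e : segL C a (a + A.length) ++ segL C (a + A.length) (a + A.length + D.length) ++
      segL C (a + A.length + D.length) b = A ++ D ++ B := by
    rw [hAB, segL_append C (by omega) (by omega), segL_append C (by omega) (by omega)]
  rw [List.append_assoc, List.append_assoc] at e
  have h1 := (List.append_inj e (by rw [length_segL]; omega)).2
  exact (List.append_inj h1 (by rw [length_segL]; omega)).1.symm

theorem infix_iff_segL {C D : List (Frame K w n)} (h : D <:+: C) :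
    ∃ a' b', a' ≤ b' ∧ b' ≤ C.length ∧ D = segL C a' b' := by
  have h' : D <:+: segL C 0 C.length := by rwa [segL_full]
  obtain ⟨a', b', _, h1, h2, h3⟩ := infix_segL (Nat.zero_le _) h'
  exact ⟨a', b', h1, h2, h3⟩

theorem wd_mem (C : List (Frame K w n)) {j : ℕ} (hj : j < C.length) : wd C j ∈ C := by
  rw [wd_eq C hj]; exact List.getElem_mem hj

end SegL

theorem det_poly_cmat {R : ℕ} (D : List (Frame K w n)) (U : Matrix (Fin R) (Fin w) K)
    (V : Matrix (Fin w) (Fin R) K) :
    ∃ p : MvPolynomial (Fin n) K, ∀ g, MvPolynomial.eval g p = (U * cmat D g * V).det := by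
  obtain ⟨p, hp⟩ := det_poly' (cpoly D) (x := fun s : Fin n → K => s)
    ⟨MvPolynomial.X, fun s i => by simp⟩ U V
  exact ⟨p, fun g => by rw [hp g, eval_cpoly]⟩

/-- `X ↦ U X V` -/
def sand {R : ℕ} (U : Matrix (Fin R) (Fin w) K) (V : Matrix (Fin w) (Fin R) K) :
    Matrix (Fin w) (Fin w) K →ₗ[K] Matrix (Fin R) (Fin R) K where
  toFun X := U * X * V
  map_add' X Y := by rw [Matrix.mul_add, Matrix.add_mul]
  map_smul' c X := by simp

/-- the number of variables which suffice -/
def kap (w k : ℕ) : ℕ :=
  (bnd k).1 (q0 w (4 * 2 ^ k)) + (bnd k).1 ((bnd k).2 ((bnd k).1 (q0 w (4 * 2 ^ k)))) +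
  (bnd k).2 ((bnd k).2 (q0 w (4 * 2 ^ k))) +
  (bnd k).2 ((bnd k).2 ((bnd k).1 ((bnd k).2 (q0 w (4 * 2 ^ k)))))

/-- **Critical lemma** for lists of frames: the minor of a list can be made nonzero by changing
few coordinates. -/
theorem crit_list [Infinite K] {T : Prog K w n} {γ : Fin n → K} {R : ℕ} (hR : R ≤ w)
    {D : List (Frame K w n)} (U : Matrix (Fin R) (Fin w) K) (V : Matrix (Fin w) (Fin R) K)
    (β : ℕ → ℕ) (t : ℕ)
    (hRA : ∀ (y : Fin n → K) (S : Finset (Fin n)), Trans T γ y S →
      RA w n γ y S β t (fun g => cmat D g))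
    (hx : ∃ x, (U * cmat D x * V).det ≠ 0) :
    ∃ (x' : Fin n → K) (S : Finset (Fin n)), S.card ≤ β (q0 w t) ∧ (∀ i, i ∉ S → x' i = γ i) ∧
      (U * cmat D x' * V).det ≠ 0 := by
  obtain ⟨p0, hp0⟩ := det_poly_cmat D U V
  exact crit_gen T γ hR (fun g => U * cmat D g * V) p0 hp0 β t
    (fun y S h => (hRA y S h).linear (sand U V)) hx

theorem rcrit [Infinite K] [Inhabited (Frame K w n)] {k : ℕ} {T T0 : Prog K w n}
    {C : List (Frame K w n)} (hC : Path T C T0) (hk : ∀ i, T.cnt i ≤ k) :
    RCrit (fun j => fpoly (wd C j)) {γ | ∀ f ∈ C, AllGood γ f.2} C.length (kap w k) := by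
  intro γ hγ a b hab hbN hinner R hR U V hx
  unfold Near
  simp only [P_eq_cmat] at hx hinner ⊢
  have hfr : ∀ j < C.length, ∀ y S, Trans T γ y S → RA w n γ y S (bnd k).1 (2 ^ k)
      (fun g => fmat (wd C j) g) := by
    intro j hj y S htr
    obtain ⟨C1, h1⟩ := hC.sibling_mem (wd_mem C hj)
    exact RA.frame (htr.mixHG h1 (hγ _ (wd_mem C hj))) fun i => (h1.cnt_le i).trans (hk i)
  rcases Nat.lt_or_ge a b with hlt | hge
  · rcases Nat.lt_or_ge (a + 1) b with hlt2 | hge2
    · -- at least two frames
      have e : segL C a b = wd C a :: (segL C (a + 1) (b - 1) ++ [wd C (b - 1)]) := by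
        have e1 : segL C (b - 1) b = [wd C (b - 1)] := by
          have := segL_one C (b - 1)
          rwa [Nat.sub_add_cancel (by omega)] at this
        rw [← segL_append C (Nat.le_succ a) hlt, segL_one, ← segL_append C
          (show a + 1 ≤ b - 1 by omega) (Nat.sub_le b 1), e1]
        rfl
      have hmid : Inside T (segL C (a + 1) (b - 1)) :=
        Inside.of_infix hC (segL_infix C (by omega) (by omega))
      have hRA : ∀ y S, Trans T γ y S → RA w n γ y S
          (fun q => (bnd k).1 ((bnd k).2 ((bnd k).1 q))) (4 * 2 ^ k)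
          (fun g => cmat (segL C a b) g) := by
        intro y S htr
        have h1 := hfr a (by omega) y S htr
        have h2 := hfr (b - 1) (by omega) y S htr
        have h3 : RA w n γ y S (bnd k).2 (2 ^ k) (fun g => cmat (segL C (a + 1) (b - 1)) g) := by
          apply RA.ctx
          · apply htr.mixCtx hmid
            · intro D' hD'
              obtain ⟨a', b', h4, h5, h6, rfl⟩ := infix_segL (by omega) hD'
              intro g'
              have h7 := hinner a' b' (by omega) h5 (by omega)
              refine le_trans ?_ h7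
              rw [← P_eq_cmat]
              exact Loc.rank_le_rho _ _ _ _
            · intro f hf
              exact hγ f ((segL_infix C (show a + 1 ≤ b - 1 by omega) (by omega)).subset hf)
          · intro i; exact (hmid.ccnt_le i).trans (hk i)
        refine (((h1.mul h3).mul h2).mono (t' := 4 * 2 ^ k) (by omega)).congr ?_
        intro g
        rw [e, cmat_cons, cmat_append, cmat_cons, cmat_nil, Matrix.mul_one, Matrix.mul_assoc]
      obtain ⟨x', S, hS, h1, h2⟩ := crit_list hR U V _ _ hRA hx
      refine ⟨x', S, hS.trans ?_, h1, h2⟩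
      unfold kap
      omega
    · -- one frame
      have hb : b = a + 1 := by omega
      subst hb
      have hRA : ∀ y S, Trans T γ y S → RA w n γ y S (bnd k).1 (4 * 2 ^ k)
          (fun g => cmat (segL C a (a + 1)) g) := by
        intro y S htr
        refine ((hfr a (by omega) y S htr).mono (t' := 4 * 2 ^ k) (by omega)).congr ?_
        intro g
        rw [segL_one, cmat_cons, cmat_nil, Matrix.mul_one]
      obtain ⟨x', S, hS, h1, h2⟩ := crit_list hR U V _ _ hRA hx
      refine ⟨x', S, hS.trans ?_, h1, h2⟩
      unfold kap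
      omega
  · have hb : b = a := by omega
    subst hb
    obtain ⟨x, hx⟩ := hx
    refine ⟨γ, ∅, by simp, fun i _ => rfl, ?_⟩
    rw [segL_self, cmat_nil] at hx ⊢
    exact hx

end Pool.Agent.Helper8.Tree
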