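import Pool.Agent.Helper8.Tree.Level
import Pool.Agent.Helper8.Tree.RepBound
import Pool.Agent.Helper8.Loc.Critical

/-!
Top level: the critical lemma for tree programs.
-/

namespace Pool.Agent.Helper8.Tree

open Module Matrix Pool.Agent.Helper5 Pool.Agent.Helper8
open Pool.Agent.Helper8.Loc (put put_mem put_not_mem put_self isPolyMap_put)

variable {K : Type*} [Field K] {w n : ℕ}

section Generic

theorem det_poly' {σ : Type*} {R : ℕ} (N : Matrix (Fin w) (Fin w) (MvPolynomial (Fin n) K))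
    {x : (σ → K) → (Fin n → K)} (hx : Loc.IsPolyMap x)
    (U : Matrix (Fin R) (Fin w) K) (V : Matrix (Fin w) (Fin R) K) :
    ∃ p : MvPolynomial σ K, ∀ s, MvPolynomial.eval s p =
      (U * N.map (MvPolynomial.eval (x s)) * V).det := by
  obtain ⟨p, hp⟩ := Loc.det_poly (fun _ => N) hx U V 0 1
  refine ⟨p, fun s => ?_⟩
  rw [hp s]
  congr 3
  unfold Loc.P
  rw [seg_one]
  rfl

theorem exists_generic [Infinite K] (γ y0 : Fin n → K) (S : Finset (Fin n))
    (J : Finset (List (Frame K w n))) (p0 : MvPolynomial (Fin n) K)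
    (h : MvPolynomial.eval (put γ S y0) p0 ≠ 0) :
    ∃ y, MvPolynomial.eval (put γ S y) p0 ≠ 0 ∧
      ∀ τ : Finset (Fin n), τ ⊆ S → ∀ C ∈ J, (cmat C γ).rank ≤ (cmat C (put γ τ y)).rank := by
  classical
  obtain ⟨X, hX⟩ := isPolyMap_put γ S
  have hp0' : ∀ s, MvPolynomial.eval s (MvPolynomial.aeval X p0) =
      MvPolynomial.eval (put γ S s) p0 := by
    intro s
    have hxs : put γ S s = fun i => MvPolynomial.eval s (X i) := funext (hX s)
    rw [hxs, MvPolynomial.aeval_def, ← MvPolynomial.coe_eval₂Hom, ← RingHom.comp_apply]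
    congr 1
    apply MvPolynomial.ringHom_ext
    · intro r; simp
    · intro i; simp
  have hU : ∀ C : List (Frame K w n), ∃ (U' : Matrix (Fin (cmat C γ).rank) (Fin w) K)
      (V' : Matrix (Fin w) (Fin (cmat C γ).rank) K), U' * cmat C γ * V' = 1 :=
    fun C => exists_mul_eq_one_of_le_rank _ le_rfl
  choose U' V' hUV using hU
  have hp : ∀ (t : Finset (Fin n) × List (Frame K w n)), ∃ p : MvPolynomial (Fin n) K, ∀ s,
      MvPolynomial.eval s p = (U' t.2 * cmat t.2 (put γ t.1 s) * V' t.2).det := by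
    intro t
    obtain ⟨p, hp⟩ := det_poly' (cpoly t.2) (isPolyMap_put γ t.1) (U' t.2) (V' t.2)
    refine ⟨p, fun s => ?_⟩
    rw [hp s, eval_cpoly]
  choose p hp using hp
  set J' : Finset (Option (Finset (Fin n) × List (Frame K w n))) :=
    insert none ((S.powerset ×ˢ J).map ⟨some, Option.some_injective _⟩) with hJ'
  obtain ⟨y, hy⟩ := Loc.exists_common_poly J' (fun t => t.elim (MvPolynomial.aeval X p0) p) (by
    intro t _
    cases t with
    | none => exact ⟨y0, by simp only [Option.elim]; rw [hp0']; exact h⟩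
    | some t =>
      refine ⟨γ, ?_⟩
      simp only [Option.elim]
      rw [hp, put_self, hUV, Matrix.det_one]
      exact one_ne_zero)
  refine ⟨y, ?_, ?_⟩
  · have := hy none (by simp [hJ'])
    simp only [Option.elim] at this
    rwa [hp0'] at this
  · intro τ hτ C hC
    have := hy (some (τ, C)) (by
      simp only [hJ', Finset.mem_insert, Finset.mem_map, Finset.mem_product, Finset.mem_powerset,
        Function.Embedding.coeFn_mk]
      right
      exact ⟨(τ, C), ⟨hτ, hC⟩, rfl⟩)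
    simp only [Option.elim] at this
    rw [hp] at this
    exact le_rank_of_det_ne_zero _ _ this

end Generic

section Good

/-- the rank of a list of frames is maximal at the point `g` -/
def GoodAt (g : Fin n → K) (C : List (Frame K w n)) : Prop :=
  ∀ g', (cmat C g').rank ≤ (cmat C g).rank

/-- all lists of frames inside `T` have maximal rank at `g` -/
def AllGood (g : Fin n → K) (T : Prog K w n) : Prop := ∀ C, Inside T C → GoodAt g C

/-- goodness at all mixtures -/
def MixGood (γ y : Fin n → K) (S : Finset (Fin n)) (C : List (Frame K w n)) : Prop :=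
  ∀ τ : Finset (Fin n), τ ⊆ S → GoodAt (put γ τ y) C

theorem pt_eq_put (γ y : Fin n → K) (S : Finset (Fin n)) (s : ℕ → Fin n) (σ : ℕ → Prop) :
    ∃ τ : Finset (Fin n), τ ⊆ S ∧ pt γ y S s σ = put γ τ y ∧
      ∀ i, i ∈ τ ↔ i ∈ S ∧ ∀ l, s l = i → σ l := by
  classical
  refine ⟨S.filter (fun i => ∀ l, s l = i → σ l), Finset.filter_subset _ _, ?_, ?_⟩
  · funext i
    unfold pt
    by_cases h : i ∈ S ∧ ∀ l, s l = i → σ l
    · rw [if_pos h, put_mem (by rw [Finset.mem_filter]; exact h)]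
    · rw [if_neg h, put_not_mem (by rw [Finset.mem_filter]; exact h)]
  · intro i
    rw [Finset.mem_filter]

theorem MixGood.rk {γ y : Fin n → K} {S : Finset (Fin n)} {C : List (Frame K w n)}
    (h : MixGood γ y S C) (s : ℕ → Fin n) : Rk γ y S s C := by
  intro σ σ'
  obtain ⟨τ, hτ, e, _⟩ := pt_eq_put γ y S s σ
  obtain ⟨τ', hτ', e', _⟩ := pt_eq_put γ y S s σ'
  rw [e, e']
  exact le_antisymm (h τ' hτ' _) (h τ hτ _)

/-- number of letters needed for a contradiction with `t` passes -/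
def q0 (w t : ℕ) : ℕ := (2 * ((t * (w * w) + 1) ^ (t * w)) + 1) ^ (t * w + 1)

theorem crit_abs {R : ℕ} (hR : R ≤ w) (F : (Fin n → K) → Matrix (Fin R) (Fin R) K) (t : ℕ)
    (γ y : Fin n → K) (S : Finset (Fin n)) (hdet : (F (put γ S y)).det ≠ 0)
    (hmin : ∀ τ : Finset (Fin n), τ ⊂ S → (F (put γ τ y)).det = 0) (β : ℕ) (i0 : Fin n)
    (hrep : ∀ (s : ℕ → Fin n) (A : Finset ℕ), β ≤ A.card → (∀ i ∈ A, ∀ j ∈ A, s i = s j → i = j) →
      ∃ B ⊆ A, q0 w t ≤ B.card ∧ Rep w n γ y S s B t (fun σ => F (pt γ y S s σ))) :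
    S.card < β := by
  classical
  by_contra hcon
  push Not at hcon
  set s : ℕ → Fin n := fun l => if h : l < S.card then S.orderEmbOfFin rfl ⟨l, h⟩ else i0
    with hs
  have hsmem : ∀ l < S.card, s l ∈ S := by
    intro l hl
    simp only [hs, hl, dif_pos]
    exact Finset.orderEmbOfFin_mem _ _ _
  have hinj : ∀ i ∈ Finset.range S.card, ∀ j ∈ Finset.range S.card, s i = s j → i = j := by
    intro i hi j hj hij
    rw [Finset.mem_range] at hi hj
    simp only [hs, hi, hj, dif_pos] at hij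
    have := (S.orderEmbOfFin rfl).injective hij
    simpa using this
  obtain ⟨B, hB, hBc, hR'⟩ := hrep s (Finset.range S.card) (by simpa using hcon) hinj
  have key := rep_bound (W := (t * (w * w) + 1) ^ (t * w)) (q := q0 w t) hBc hR' ?_ ?_ ?_
  · exact lt_irrefl _ key
  · obtain ⟨τ, hτ, e, hmem⟩ := pt_eq_put γ y S s (fun _ => True)
    have : τ = S := by
      ext i
      rw [hmem]
      simp
    rw [e, this]
    exact hdet
  · intro σ hσ
    obtain ⟨l, hl, hσl⟩ := hσ
    obtain ⟨τ, hτ, e, hmem⟩ := pt_eq_put γ y S s σ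
    have hl' := Finset.mem_range.mp (hB hl)
    rw [e]
    apply hmin
    rw [Finset.ssubset_iff_of_subset hτ]
    refine ⟨s l, hsmem l hl', fun h => hσl ?_⟩
    rw [hmem] at h
    exact h.2 l rfl
  · exact Nat.pow_le_pow_right (Nat.succ_pos _) (Nat.mul_le_mul_left _ hR)

end Good

section RA

variable (γ y : Fin n → K) (S : Finset (Fin n))

/-- representable for all large sets of letters -/
def RA (w n : ℕ) {K : Type*} [Field K] (γ y : Fin n → K) (S : Finset (Fin n)) (β : ℕ → ℕ) (t : ℕ)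
    {m p : ℕ} (X : (Fin n → K) → Matrix (Fin m) (Fin p) K) : Prop :=
  ∀ (s : ℕ → Fin n) (q : ℕ) (A : Finset ℕ), β q ≤ A.card →
    (∀ i ∈ A, ∀ j ∈ A, s i = s j → i = j) →
    ∃ B ⊆ A, q ≤ B.card ∧ Rep w n γ y S s B t (fun σ => X (pt γ y S s σ))

variable {γ y S} {m p : ℕ}

theorem RA.mul {q : ℕ} {β1 β2 : ℕ → ℕ} {t1 t2 : ℕ} {X : (Fin n → K) → Matrix (Fin m) (Fin p) K}
    {Y : (Fin n → K) → Matrix (Fin p) (Fin q) K} (hX : RA w n γ y S β1 t1 X)
    (hY : RA w n γ y S β2 t2 Y) :
    RA w n γ y S (fun q => β1 (β2 q)) (t1 + t2) (fun g => X g * Y g) := by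
  intro s q A hA hinj
  obtain ⟨B, hB, hBc, hR⟩ := hX s (β2 q) A hA hinj
  obtain ⟨B', hB', hBc', hR'⟩ := hY s q B hBc (fun i hi j hj => hinj i (hB hi) j (hB hj))
  exact ⟨B', hB'.trans hB, hBc', (hR.mono hB' le_rfl).mul hR'⟩

theorem RA.const [Inhabited (Frame K w n)] (X : Matrix (Fin m) (Fin p) K) :
    RA w n γ y S (fun q => q) 0 (fun _ => X) := by
  intro s q A hA _
  exact ⟨A, subset_rfl, hA, Rep.const _ fun _ _ => rfl⟩

theorem RA.linear {β : ℕ → ℕ} {t : ℕ} {X : (Fin n → K) → Matrix (Fin m) (Fin p) K}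
    (hX : RA w n γ y S β t X) {m' p' : ℕ}
    (H : Matrix (Fin m) (Fin p) K →ₗ[K] Matrix (Fin m') (Fin p') K) :
    RA w n γ y S β t (fun g => H (X g)) := by
  intro s q A hA hinj
  obtain ⟨B, hB, hBc, hR⟩ := hX s q A hA hinj
  exact ⟨B, hB, hBc, hR.linear H⟩

theorem RA.mono {β : ℕ → ℕ} {t t' : ℕ} (ht : t ≤ t') {X : (Fin n → K) → Matrix (Fin m) (Fin p) K}
    (hX : RA w n γ y S β t X) : RA w n γ y S β t' X := by
  intro s q A hA hinj
  obtain ⟨B, hB, hBc, hR⟩ := hX s q A hA hinj
  exact ⟨B, hB, hBc, hR.mono subset_rfl ht⟩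

theorem RA.congr {β : ℕ → ℕ} {t : ℕ} {X X' : (Fin n → K) → Matrix (Fin m) (Fin p) K}
    (hX : RA w n γ y S β t X) (h : ∀ g, X' g = X g) : RA w n γ y S β t X' := by
  have : X' = X := funext h
  rw [this]; exact hX

/-- hereditarily good at all mixtures -/
def MixHG (γ y : Fin n → K) (S : Finset (Fin n)) (T : Prog K w n) : Prop :=
  ∀ C, Inside T C → MixGood γ y S C

theorem RA.tree [Inhabited (Frame K w n)] {k : ℕ} {T : Prog K w n} (hT : MixHG γ y S T)
    (hk : ∀ i, T.cnt i ≤ k) : RA w n γ y S (bnd k).1 (2 ^ k) (fun g => col (T.val g)) := by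
  intro s q A hA hinj
  exact (rep_lemma γ y S s k).1 q T A (fun C hC => (hT C hC).rk s) hA hinj (fun l _ => hk _)

/-- a list of frames all of whose segments are good and all of whose siblings are hereditarily
good -/
def MixCtx (γ y : Fin n → K) (S : Finset (Fin n)) (C : List (Frame K w n)) : Prop :=
  (∀ D1 D D2, C = D1 ++ D ++ D2 → MixGood γ y S D) ∧ ∀ f ∈ C, MixHG γ y S f.2

theorem RA.ctx [Inhabited (Frame K w n)] {k : ℕ} {C : List (Frame K w n)}
    (hC : MixCtx γ y S C) (hk : ∀ i, ccnt i C ≤ k) :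
    RA w n γ y S (bnd k).2 (2 ^ k) (fun g => cmat C g) := by
  have h1 : RA w n γ y S (bnd k).2 (2 ^ k)
      (fun g => seg (fun l => fmat (wd C l) g) 0 C.length) := by
    intro s q A hA hinj
    refine (rep_lemma γ y S s k).2 q (wd C) 0 C.length A (Nat.zero_le _) ?_ ?_ hA hinj ?_
    · intro i j _ hij hj σ σ'
      have e1 : C = C.take i ++ (C.drop i).take (j - i) ++ (C.drop i).drop (j - i) := by
        rw [List.append_assoc, List.take_append_drop, List.take_append_drop]
      have := (hC.1 _ _ _ e1).rk s σ σ'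
      rwa [cmat_eq_seg C _ i j hij hj, cmat_eq_seg C _ i j hij hj] at this
    · intro j _ hj
      have e2 : wd C j = C[j] := by
        unfold wd
        rw [List.getD_eq_getElem?_getD, List.getElem?_eq_getElem hj]
        rfl
      rw [e2]
      intro D hD
      exact (hC.2 _ (List.getElem_mem hj) D hD).rk s
    · intro l _
      rw [← ccnt_eq_sum]
      exact hk _
  exact h1.congr fun g => cmat_eq_seg' C g

theorem RA.frame [Inhabited (Frame K w n)] {k : ℕ} {f : Frame K w n} (hf : MixHG γ y S f.2)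
    (hk : ∀ i, f.2.cnt i ≤ k) : RA w n γ y S (bnd k).1 (2 ^ k) (fun g => fmat f g) :=
  ((RA.tree hf hk).linear (flin f)).congr fun g => (flin_col f g).symm

end RA

end Pool.Agent.Helper8.Tree
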